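import Pool.Agent.H.MP_f4f698_an.G

open Set Filter Topology Metric Real
open Pool.Agent.H.MP_f4f698_an (Fam fence clamp_lip le_of_deriv)

namespace Pool.Agent.H.MP_c081e6_an

def Dn (q s v : ℝ) : ℝ := (1 - s * v) ^ 2 + q * (s + v) ^ 2

lemma Dn_pos {q s v : ℝ} (hq : 0 < q) (hs : 0 < s) (hv : 0 < v) : 0 < Dn q s v := by
  unfold Dn; positivity

noncomputable def F (q a s v : ℝ) : ℝ :=
  (1 + v ^ 2) * (9 * (v - s) * (s * v - 1) + q * a * s * (1 + v ^ 2)) / (v * Dn q s v)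

noncomputable def Ps (q a t y : ℝ) : ℝ := F q a (exp t) (exp y)

noncomputable def ca (a : ℝ) : ℝ := max 1 (min a (3 / 2))

noncomputable def cl (t y : ℝ) : ℝ := max (-(|t| + 1)) (min y (|t| + 1))

noncomputable def Gc (q a t y : ℝ) : ℝ := Ps q (ca a) t (cl t y)

variable {q : ℝ}

lemma contDiff_Ps (hq : 0 < q) : ContDiff ℝ 1 fun p : ℝ × ℝ × ℝ => Ps q p.1 p.2.1 p.2.2 := by
  unfold Ps F
  refine ContDiff.div (by fun_prop) (by unfold Dn; fun_prop) fun p => ?_
  exact (mul_pos (exp_pos _) (Dn_pos hq (exp_pos _) (exp_pos _))).ne'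

lemma mem_box (T a s v : ℝ) (hs : s ∈ Icc (-T) T) : (ca a, s, cl s v) ∈
    Icc (1 : ℝ) (3 / 2) ×ˢ (Icc (-T) T ×ˢ Icc (-(T + 1)) (T + 1)) := by
  have h1 : |s| ≤ T := abs_le.2 hs
  have h3 := abs_nonneg s
  refine ⟨⟨le_max_left _ _, max_le (by norm_num) (min_le_right _ _)⟩, hs, ?_, ?_⟩
  · exact le_trans (by linarith) (le_max_left _ _)
  · exact max_le (by linarith) ((min_le_right _ _).trans (by linarith))

lemma fam (hq : 0 < q) : Fam (Gc q) := by
  have hc : ∀ T : ℝ, IsCompact (Icc (1 : ℝ) (3 / 2) ×ˢ (Icc (-T) T ×ˢ Icc (-(T + 1)) (T + 1))) :=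
    fun T => isCompact_Icc.prod (isCompact_Icc.prod isCompact_Icc)
  refine ⟨fun T => ?_, fun T => ?_, fun a v => ?_⟩
  · obtain ⟨K, hK⟩ :=
      ((contDiff_Ps hq).locallyLipschitz.locallyLipschitzOn).exists_lipschitzOnWith_of_compact (hc T)
    refine ⟨K, fun a b s hs v w => ?_⟩
    have := hK.dist_le_mul _ (mem_box T a s v hs) _ (mem_box T b s w hs)
    refine le_trans this (mul_le_mul_of_nonneg_left ?_ K.2)
    simp only [Prod.dist_eq, Real.dist_eq, sub_self, abs_zero]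
    have e1 : |ca a - ca b| ≤ |a - b| := clamp_lip _ _ a b
    have e2 : |cl s v - cl s w| ≤ |v - w| := clamp_lip _ _ v w
    have := abs_nonneg (a - b)
    have := abs_nonneg (v - w)
    exact max_le (by linarith) (max_le (by linarith) (by linarith))
  · obtain ⟨C, hC⟩ := (hc T).exists_bound_of_continuousOn (contDiff_Ps hq).continuous.continuousOn
    refine ⟨⟨max C 0, le_max_right _ _⟩, fun a s hs v => ?_⟩
    exact le_trans (hC _ (mem_box T a s v hs)) (le_max_left _ _)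
  · exact (contDiff_Ps hq).continuous.comp
      (f := fun s : ℝ => (ca a, s, cl s v)) (by unfold cl; fun_prop)

lemma Gc_eq {a t y : ℝ} (ha : a ∈ Icc (1 : ℝ) (3 / 2)) (ht : 0 ≤ t) (h0 : 0 ≤ y) (h1 : y ≤ t + 1) :
    Gc q a t y = F q a (exp t) (exp y) := by
  unfold Gc ca cl Ps
  rw [abs_of_nonneg ht, min_eq_left ha.2, max_eq_right ha.1, min_eq_left h1,
    max_eq_right (by linarith)]

lemma Ps_neg (hq : 0 < q) (a t y : ℝ) : Ps q a (-t) (-y) = Ps q a t y := by
  have h1 := (Dn_pos hq (exp_pos t) (exp_pos y)).ne'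
  have h2 := exp_pos t
  have h3 := exp_pos y
  have e : Dn q (exp t)⁻¹ (exp y)⁻¹ = Dn q (exp t) (exp y) / (exp t * exp y) ^ 2 := by
    unfold Dn; field_simp; ring
  unfold Ps F
  rw [exp_neg, exp_neg, e]
  field_simp
  ring

lemma Gc_neg (hq : 0 < q) (a t y : ℝ) : Gc q a (-t) (-y) = Gc q a t y := by
  have h3 := abs_nonneg t
  have : cl (-t) (-y) = -cl t y := by
    unfold cl
    rw [abs_neg]
    rcases le_total y (-(|t| + 1)) with h | h
    · rw [min_eq_right (by linarith), max_eq_right (by linarith), min_eq_left (by linarith),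
        max_eq_left h, neg_neg]
    · rcases le_total y (|t| + 1) with h' | h'
      · rw [min_eq_left (by linarith), max_eq_right (by linarith), min_eq_left h', max_eq_right h]
      · rw [min_eq_left (by linarith), max_eq_left (by linarith), min_eq_right h',
          max_eq_right (by linarith)]
  unfold Gc
  rw [this, Ps_neg hq]

lemma F_diag (hq : 0 < q) (a : ℝ) {s : ℝ} (hs : 0 < s) : F q a s s - 1 =
    (4 * q * (a - 1) * s ^ 2 + (q * a - 1) * (s ^ 2 - 1) ^ 2) / Dn q s s := by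
  have := (Dn_pos hq hs hs).ne'
  unfold F
  field_simp
  unfold Dn
  ring

lemma bar_up (hq : 0 < q) {a s : ℝ} (ha : 1 ≤ a) (hs : 1 ≤ s) : 1 < F q a s (9 / 8 * s) := by
  have s0 : 0 < s := by linarith
  unfold F
  rw [one_lt_div (mul_pos (by positivity) (Dn_pos hq s0 (by positivity)))]
  obtain ⟨t, ht⟩ : ∃ t, t = s ^ 2 := ⟨_, rfl⟩
  have t1 : 1 ≤ t := by nlinarith
  have e : (1 + (9 / 8 * s) ^ 2) * (9 * (9 / 8 * s - s) * (s * (9 / 8 * s) - 1) +
      q * a * s * (1 + (9 / 8 * s) ^ 2)) - 9 / 8 * s * Dn q s (9 / 8 * s) =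
      s * (9 / 8 * (9 / 8 * t - 1) * (2 + 9 / 64 * t) +
        q * (a * (1 + 81 / 64 * t) ^ 2 - 9 / 8 * (17 / 8) ^ 2 * t)) := by
    rw [ht]; unfold Dn; ring
  rw [← sub_pos, e]
  have e1 : 1 * (1 + 81 / 64 * t) ^ 2 ≤ a * (1 + 81 / 64 * t) ^ 2 :=
    mul_le_mul_of_nonneg_right ha (by positivity)
  have e2 : 0 ≤ a * (1 + 81 / 64 * t) ^ 2 - 9 / 8 * (17 / 8) ^ 2 * t := by nlinarith
  have e3 : 0 < 9 / 8 * t - 1 := by linarith
  positivity

lemma bar_L (hq : 0 < q) {s : ℝ} (hs : 1 ≤ s) :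
    5 / 4 * s / (5 / 4 * s - 1 / 4) < F q (3 / 2) s (5 / 4 * s - 1 / 4) := by
  have s0 : 0 < s := by linarith
  obtain ⟨v, hv⟩ : ∃ v, v = 5 / 4 * s - 1 / 4 := ⟨_, rfl⟩
  rw [← hv]
  have v1 : s ≤ v := by linarith
  have v0 : 0 < v := by linarith
  have D := Dn_pos hq s0 v0
  unfold F
  rw [← div_div, div_right_comm, div_lt_div_iff_of_pos_right v0, lt_div_iff₀ D, ← sub_pos]
  have e : (1 + v ^ 2) * (9 * (v - s) * (s * v - 1) + q * (3 / 2) * s * (1 + v ^ 2)) -
      5 / 4 * s * Dn q s v = (s * v - 1) * (9 * (v - s) * (1 + v ^ 2) - 5 / 4 * s * (s * v - 1)) +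
        q * s * (3 / 2 * (1 + v ^ 2) ^ 2 - 5 / 4 * (s + v) ^ 2) := by
    unfold Dn; ring
  rw [e]
  have e1 : 0 ≤ s * v - 1 := by nlinarith
  have e2 : 0 ≤ 9 * (v - s) * (1 + v ^ 2) - 5 / 4 * s * (s * v - 1) := by
    obtain ⟨x, rfl⟩ : ∃ x, s = 1 + x := ⟨s - 1, by ring⟩
    have x0 : 0 ≤ x := by linarith
    have : 9 * (v - (1 + x)) * (1 + v ^ 2) - 5 / 4 * (1 + x) * ((1 + x) * v - 1) =
      x * (27 / 16 + 5 / 4 * x + 125 / 64 * x ^ 2) := by rw [hv]; ring
    rw [this]; positivity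
  have e3 : 0 < 3 / 2 * (1 + v ^ 2) ^ 2 - 5 / 4 * (s + v) ^ 2 := by
    have : (s + v) ^ 2 ≤ (2 * v) ^ 2 := pow_le_pow_left₀ (by positivity) (by linarith) 2
    have : (2 * v) ^ 2 ≤ (1 + v ^ 2) ^ 2 :=
      pow_le_pow_left₀ (by positivity) (by nlinarith [sq_nonneg (v - 1)]) 2
    have : 0 < (1 + v ^ 2) ^ 2 := by positivity
    linarith
  positivity

lemma log98 : 0 < log (9 / 8) ∧ log (9 / 8) ≤ 1 :=
  ⟨log_pos (by norm_num), (log_le_sub_one_of_pos (by norm_num)).trans (by norm_num)⟩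

section
variable (hq : 0 < q) (hq' : q < 2 / 3) {a : ℝ} {y : ℝ → ℝ} (ha : a ∈ Icc (1 : ℝ) (3 / 2))
  (h0 : y 0 = 0) (hy : ∀ t, HasDerivAt y (Gc q a t (y t)) t)
include hq ha hy

lemma stay_above {s t : ℝ} (hs : 0 ≤ s) (hst : s ≤ t) (h : s + log (9 / 8) ≤ y s) :
    t + log (9 / 8) ≤ y t := by
  refine fence (f := fun s => s + log (9 / 8)) (fun x => (hasDerivAt_id x).add_const _) hy h
    (fun x h1 _ h3 => ?_) hst le_rfl
  have x0 : 0 ≤ x := by linarith
  rw [← h3, Gc_eq ha x0 (by linarith [log98.1]) (by linarith [log98.2]), exp_add,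
    exp_log (by norm_num), mul_comm]
  exact bar_up hq ha.1 (one_le_exp x0)

include h0 hq' in
lemma stay_below {s t : ℝ} (hs : 0 ≤ s) (hst : s ≤ t) (h : y s < s) : y t ≤ t := by
  have hU : ∀ x, 0 ≤ x → Gc q a x x = F q a (exp x) (exp x) := fun x x0 =>
    Gc_eq ha x0 x0 (by linarith)
  obtain ⟨s0, s1, s2, s3⟩ : ∃ s0, 0 ≤ s0 ∧ s0 < s ∧
      4 * q * (a - 1) * exp s0 ^ 2 + (q * a - 1) * (exp s0 ^ 2 - 1) ^ 2 ≤ 0 := by
    by_contra! H
    refine absurd (fence (f := fun s => s) hasDerivAt_id hy (a := 0) (b := s)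
      (by simp [h0]) (fun x h1 h2 h3 => ?_) hs le_rfl) (not_le.2 h)
    rw [← h3, hU x h1, ← sub_pos, F_diag hq a (exp_pos x)]
    exact div_pos (H x h1 h2) (Dn_pos hq (exp_pos _) (exp_pos _))
  refine fence (g := fun s => s) hy hasDerivAt_id h.le (fun x h1 _ h3 => ?_) hst le_rfl
  rw [h3, hU x (by linarith), ← sub_neg, F_diag hq a (exp_pos x)]
  refine div_neg_of_neg_of_pos ?_ (Dn_pos hq (exp_pos _) (exp_pos _))
  have u1 : 1 ≤ exp s0 ^ 2 := one_le_pow₀ (one_le_exp s1)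
  have u2 : exp s0 ^ 2 < exp x ^ 2 :=
    pow_lt_pow_left₀ (exp_lt_exp.2 (by linarith)) (exp_pos _).le two_ne_zero
  generalize exp s0 ^ 2 = u at *
  generalize exp x ^ 2 = w at *
  have r0 : q * a - 1 < 0 := by nlinarith [ha.2]
  have p0 : 0 ≤ 4 * q * (a - 1) := by have := ha.1; have : 0 ≤ a - 1 := by linarith
                                      positivity
  generalize 4 * q * (a - 1) = p at *
  generalize q * a - 1 = r at *
  have e1 : w * (u - 1) ^ 2 < u * (w - 1) ^ 2 := by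
    have : u * (w - 1) ^ 2 - w * (u - 1) ^ 2 = (w - u) * (u * w - 1) := by ring
    have : 0 < (w - u) * (u * w - 1) := mul_pos (by linarith) (by nlinarith)
    linarith
  have e2 : u * (p * w + r * (w - 1) ^ 2) < w * (p * u + r * (u - 1) ^ 2) := by nlinarith
  have e3 : w * (p * u + r * (u - 1) ^ 2) ≤ 0 := mul_nonpos_of_nonneg_of_nonpos (by linarith) s3
  by_contra! H
  have := mul_nonneg (show 0 ≤ u by linarith) H
  linarith

end

lemma end_high (hq : 0 < q) {y : ℝ → ℝ} (h0 : y 0 = 0)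
    (hy : ∀ t, HasDerivAt y (Gc q (3 / 2) t (y t)) t) : log 3 + log (9 / 8) < y (log 3) := by
  have l3 : 0 ≤ log 3 := log_nonneg (by norm_num)
  have := image_le_of_deriv_right_lt_deriv_boundary' (a := 0) (b := log 3)
    (f := fun t => log (5 / 4 * exp t - 1 / 4))
    (f' := fun t => 5 / 4 * exp t / (5 / 4 * exp t - 1 / 4)) (B := y) ?_ ?_ (by simp [h0]; norm_num)
    (fun x _ => (hy x).continuousAt.continuousWithinAt) (fun x _ => (hy x).hasDerivWithinAt)
    (fun x hx h3 => ?_) ⟨l3, le_rfl⟩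
  · simp only [exp_log (show (0 : ℝ) < 3 by norm_num)] at this
    refine lt_of_lt_of_le ?_ this
    rw [← log_mul (by norm_num) (by norm_num)]
    exact log_lt_log (by norm_num) (by norm_num)
  · refine ContinuousOn.log (by fun_prop) fun x hx => ?_
    have := one_le_exp hx.1
    linarith
  · intro x hx
    have := one_le_exp hx.1
    exact ((((hasDerivAt_exp x).const_mul (5 / 4)).sub_const (1 / 4)).log
      (by linarith)).hasDerivWithinAt
  · have e1 := one_le_exp hx.1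
    have e2 : log (5 / 4 * exp x - 1 / 4) ≤ x + 1 := by
      rw [log_le_iff_le_exp (by linarith), exp_add]
      have := add_one_le_exp 1
      nlinarith
    rw [← h3, Gc_eq (by norm_num) hx.1 (log_nonneg (by linarith)) e2, exp_log (by linarith)]
    exact bar_L hq e1

lemma end_low (hq : 0 < q) (hq' : q < 2 / 3) {y : ℝ → ℝ} (h0 : y 0 = 0)
    (hy : ∀ t, HasDerivAt y (Gc q 1 t (y t)) t) : ∃ t, 0 ≤ t ∧ y t < t := by
  obtain ⟨K, hK⟩ := (fam hq).lip 1
  have hU : ∀ x, 0 ≤ x → Gc q 1 x x - 1 = (q - 1) * (exp x ^ 2 - 1) ^ 2 / Dn q (exp x) (exp x) :=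
    fun x x0 => by
      rw [Gc_eq (by norm_num) x0 x0 (by linarith), F_diag hq 1 (exp_pos x)]; congr 1; ring
  have le : ∀ t ∈ Icc (0 : ℝ) 1, y t ≤ t := by
    intro t ht
    refine le_of_forall_pos_le_add fun e he => ?_
    obtain ⟨r, hr⟩ : ∃ r : ℝ, r = e * exp (-((K + 1) * t)) := ⟨_, rfl⟩
    have r0 : 0 < r := by rw [hr]; positivity
    have hB : ∀ x, HasDerivAt (fun s : ℝ => s + r * exp ((K + 1) * s))
        (1 + r * (exp ((K + 1) * x) * (K + 1))) x := fun x =>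
      (hasDerivAt_id x).add ((Pool.Agent.H.MP_f4f698_an.line_deriv0 _ x).exp.const_mul r)
    have := fence hy hB (a := 0) (b := 1) (by simp [h0, r0.le]) (fun x h1 h2 h3 => ?_) ht.1 ht.2
    · rwa [hr, mul_assoc, ← exp_add, neg_add_cancel, exp_zero, mul_one] at this
    · have h4 := hK 1 1 x ⟨by linarith, h2.le⟩ (y x) x
      have h5 : Gc q 1 x x - 1 ≤ 0 := by
        rw [hU x h1]
        exact div_nonpos_of_nonpos_of_nonneg
          (mul_nonpos_of_nonpos_of_nonneg (by linarith) (by positivity))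
          (Dn_pos hq (exp_pos _) (exp_pos _)).le
      have h6 : y x - x = r * exp ((K + 1) * x) := by linarith
      have h7 : 0 < r * exp ((K + 1) * x) := by positivity
      rw [h6, sub_self, abs_zero, zero_add, abs_of_pos h7] at h4
      have := (abs_le.1 h4).2
      nlinarith
  by_contra! H
  have e : y =ᶠ[𝓝 (1 / 2)] fun t => t := by
    filter_upwards [Icc_mem_nhds (show (0 : ℝ) < 1 / 2 by norm_num) (show (1 / 2 : ℝ) < 1 by norm_num)]
      with t ht using le_antisymm (le t ht) (H t ht.1)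
  have e1 := (hy (1 / 2)).unique ((hasDerivAt_id _).congr_of_eventuallyEq e)
  rw [e.eq_of_nhds] at e1
  have e2 := hU (1 / 2) (by norm_num)
  rw [e1, sub_self] at e2
  have e3 : 1 < exp (1 / 2) ^ 2 := one_lt_pow₀ (one_lt_exp_iff.2 (by norm_num)) two_ne_zero
  have : (q - 1) * (exp (1 / 2) ^ 2 - 1) ^ 2 / Dn q (exp (1 / 2)) (exp (1 / 2)) < 0 :=
    div_neg_of_neg_of_pos (mul_neg_of_neg_of_pos (by linarith) (pow_pos (by linarith) 2))
      (Dn_pos hq (exp_pos _) (exp_pos _))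
  linarith

theorem shoot (hq : 0 < q) (hq' : q < 2 / 3) : ∃ a, 1 < a ∧ a ≤ 3 / 2 ∧ ∃ y : ℝ → ℝ,
    (∀ t, HasDerivAt y (Ps q a t (y t)) t) ∧ (∀ t, y (-t) = -y t) ∧
      ∀ t, 0 ≤ t → t ≤ y t ∧ y t ≤ t + log (9 / 8) := by
  choose V V0 hV using (fam hq).exists_sol
  have cV : ∀ s, 0 ≤ s → Continuous fun a => V a s := fun s hs => (fam hq).cont_param V0 hV hs
  let A : Set ℝ := ⋃ s ∈ Ici (0 : ℝ), {a | s + log (9 / 8) < V a s}
  let B : Set ℝ := ⋃ s ∈ Ici (0 : ℝ), {a | V a s < s}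
  have oA : IsOpen A := isOpen_biUnion fun s hs => isOpen_lt continuous_const (cV s hs)
  have oB : IsOpen B := isOpen_biUnion fun s hs => isOpen_lt (cV s hs) continuous_const
  have B1 : (1 : ℝ) ∈ B := by
    obtain ⟨t, t0, ht⟩ := end_low hq hq' (V0 1) (hV 1)
    exact mem_biUnion (x := t) t0 ht
  have hAB : ¬ Icc (1 : ℝ) (3 / 2) ⊆ A ∪ B := by
    intro H
    have nA : (Icc (1 : ℝ) (3 / 2) ∩ A).Nonempty :=
      ⟨3 / 2, by norm_num, mem_biUnion (x := log 3) (log_nonneg (by norm_num))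
        (end_high hq (V0 _) (hV _))⟩
    obtain ⟨a, ha, hA, hB⟩ := isPreconnected_Icc A B oA oB H nA ⟨1, by norm_num, B1⟩
    obtain ⟨s, hs, h1⟩ := mem_iUnion₂.1 hA
    obtain ⟨t, ht, h2⟩ := mem_iUnion₂.1 hB
    have k1 := stay_above hq ha (hV a) hs (le_max_left s t) (le_of_lt h1)
    have k2 := stay_below hq hq' ha (V0 a) (hV a) ht (le_max_right s t) h2
    linarith [log98.1]
  obtain ⟨a, ha, hn⟩ := not_subset.1 hAB
  have odd : ∀ s, V a (-s) = -V a s := by
    intro s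
    have := (fam hq).uniq a (T := |s| + 1) (by positivity) (α := fun t => -V a (-t))
      (β := V a) (fun t _ => ?_) (fun t _ => hV a t) (by simp [V0])
    · have := this (x := s) ⟨by linarith [neg_abs_le s], by linarith [le_abs_self s]⟩
      simp only at this
      linarith
    · have h1 := ((hV a (-t)).comp t (hasDerivAt_neg t)).neg
      have h2 := Gc_neg hq a t (-V a (-t))
      rw [neg_neg] at h2
      rw [← h2]
      exact h1.congr_deriv (by ring)
  have lo : ∀ s, 0 ≤ s → s ≤ V a s := fun s hs =>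
    not_lt.1 fun h => hn (Or.inr (mem_biUnion (x := s) hs h))
  have hi : ∀ s, 0 ≤ s → V a s ≤ s + log (9 / 8) := fun s hs =>
    not_lt.1 fun h => hn (Or.inl (mem_biUnion (x := s) hs h))
  have pos : ∀ s, 0 ≤ s → Gc q a s (V a s) = Ps q a s (V a s) := fun s hs =>
    Gc_eq ha hs (hs.trans (lo s hs)) (by linarith [hi s hs, log98.2])
  refine ⟨a, lt_of_le_of_ne ha.1 fun e => hn (Or.inr (e ▸ B1)), ha.2, V a, fun s => ?_, odd,
    fun s hs => ⟨lo s hs, hi s hs⟩⟩
  rcases le_total 0 s with hs | hs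
  · rw [← pos s hs]; exact hV a s
  · have := pos (-s) (by linarith)
    rw [odd, Gc_neg hq, Ps_neg hq] at this
    rw [← this]; exact hV a s

end Pool.Agent.H.MP_c081e6_an
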