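import Pool.Agent.H.MP_c081e6_an.A

open Set Filter Topology Metric Real
open Pool.Agent.H.MP_f4f698_an (le_of_deriv ww ww_pos ww_deriv ww_sqrt)

namespace Pool.Agent.H.MP_c081e6_an

noncomputable def ell (q a s v : ℝ) : ℝ :=
  (((q * a + 9) * s - 9 * v) * (1 + v ^ 2) - a * v * (1 + q * v ^ 2 + (q - 1) * s * v)) / Dn q s v

structure Sol (q a : ℝ) (v E : ℝ → ℝ) : Prop where
  hq : 0 < q
  a1 : 1 < a
  a2 : a ≤ 3 / 2
  hv : ∀ s, 0 < s → HasDerivAt v (v s * F q a s (v s) / s) s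
  hE : ∀ s, 0 < s → HasDerivAt E (E s * ell q a s (v s)) s
  cv : ∀ s, 0 < s → ContDiffAt ℝ 1 v s
  cE : ∀ s, 0 < s → ContDiffAt ℝ 1 E s
  vpos : ∀ s, 0 < v s
  Epos : ∀ s, 0 < E s
  vinv : ∀ s, 0 < s → v s⁻¹ = (v s)⁻¹
  Einv : ∀ s, 0 < s → E s⁻¹ = (s ^ a)⁻¹ * v s * E s
  lo : ∀ s, 1 ≤ s → s ≤ v s
  hi : ∀ s, 1 ≤ s → v s ≤ 9 / 8 * s

theorem exists_sol {q : ℝ} (hq : 0 < q) (hq' : q < 2 / 3) : ∃ a v E, Sol q a v E := by
  obtain ⟨a, a1, a2, y, hy, odd, hb⟩ := shoot hq hq'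
  have cy : Continuous y := continuous_iff_continuousAt.2 fun s => (hy s).continuousAt
  obtain ⟨m, hm⟩ : ∃ m : ℝ → ℝ, m = fun t => exp t * ell q a (exp t) (exp (y t)) := ⟨_, rfl⟩
  have cm : Continuous m := by
    rw [hm]
    unfold ell
    refine continuous_exp.mul (Continuous.div (by fun_prop) (by unfold Dn; fun_prop) fun s => ?_)
    exact (Dn_pos hq (exp_pos _) (exp_pos _)).ne'
  obtain ⟨r, r0, hr⟩ : ∃ r : ℝ → ℝ, r 0 = 0 ∧ ∀ t, HasDerivAt r (m t) t :=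
    ⟨fun s => ∫ t in (0 : ℝ)..s, m t, by simp,
      fun s => (cm.integral_hasStrictDerivAt 0 s).hasDerivAt⟩
  have dy : ContDiff ℝ 1 y := by
    rw [contDiff_one_iff_deriv]
    refine ⟨fun s => (hy s).differentiableAt, ?_⟩
    rw [show deriv y = _ from funext fun s => (hy s).deriv]
    exact (contDiff_Ps hq).continuous.comp (f := fun s => (a, s, y s)) (by fun_prop)
  have dr : ContDiff ℝ 1 r := by
    rw [contDiff_one_iff_deriv]
    refine ⟨fun s => (hr s).differentiableAt, ?_⟩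
    rw [show deriv r = _ from funext fun s => (hr s).deriv]
    exact cm
  have y0 : y 0 = 0 := by have := odd 0; rw [neg_zero] at this; linarith
  have sym : ∀ t, r (-t) = r t + y t - a * t := by
    have hd : ∀ t, HasDerivAt (fun t => r (-t) - (r t + y t - a * t)) 0 t := fun t => by
      refine (((hr (-t)).comp t (hasDerivAt_neg t)).sub (((hr t).add (hy t)).sub
        (Pool.Agent.H.MP_f4f698_an.line_deriv0 a t))).congr_deriv ?_
      have h1 := (Dn_pos hq (exp_pos t) (exp_pos (y t))).ne'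
      have h2 := exp_pos t
      have h3 := exp_pos (y t)
      have e : Dn q (exp t)⁻¹ (exp (y t))⁻¹ =
          Dn q (exp t) (exp (y t)) / (exp t * exp (y t)) ^ 2 := by
        unfold Dn; field_simp; ring
      simp only [hm, odd, exp_neg, ell, Ps, F, e]
      field_simp
      unfold Dn
      ring
    intro t
    have := is_const_of_deriv_eq_zero (fun t => (hd t).differentiableAt) (fun t => (hd t).deriv) t 0
    simp only [neg_zero, r0, y0] at this
    linarith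
  refine ⟨a, fun s => exp (y (log s)), fun s => exp (r (log s)), hq, a1, a2, fun s hs => ?_,
    fun s hs => ?_, fun s hs => ?_, fun s hs => ?_, fun s => exp_pos _, fun s => exp_pos _,
    fun s hs => ?_, fun s hs => ?_, fun s hs => ?_, fun s hs => ?_⟩
  · refine ((hy (log s)).comp s (hasDerivAt_log hs.ne')).exp.congr_deriv ?_
    simp only [Function.comp, Ps, exp_log hs]
    field_simp
  · refine ((hr (log s)).comp s (hasDerivAt_log hs.ne')).exp.congr_deriv ?_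
    simp only [Function.comp, hm, exp_log hs]
    field_simp
  · exact (dy.contDiffAt.comp s (contDiffAt_log.2 hs.ne')).exp
  · exact (dr.contDiffAt.comp s (contDiffAt_log.2 hs.ne')).exp
  · simp only [log_inv, odd, exp_neg]
  · simp only [log_inv, sym]
    rw [rpow_def_of_pos hs, ← exp_neg, ← exp_add, ← exp_add]
    congr 1; ring
  · have := exp_le_exp.2 (hb (log s) (log_nonneg hs)).1
    rwa [exp_log (by linarith)] at this
  · have := exp_le_exp.2 (hb (log s) (log_nonneg hs)).2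
    rwa [exp_add, exp_log (by linarith), exp_log (by norm_num), mul_comm] at this

structure Prof (q a M L C : ℝ) (g P R : ℝ → ℝ) : Prop where
  hq : 0 < q
  a1 : 1 < a
  a2 : a ≤ 3 / 2
  hg : ∀ s, 0 < s → HasDerivAt g (P s) s
  hR : ∀ s, R s = (a + 1) * g s - s * P s
  cP : ∀ s, 0 < s → ContDiffAt ℝ 1 P s
  cR : ∀ s, 0 < s → ContDiffAt ℝ 1 R s
  Hpos : ∀ s, 0 < P s ^ 2 + R s ^ 2
  hdiv : ∀ s, 0 < s → 10 * ((P s ^ 2 + R s ^ 2) ^ ((q - 1) / 2) * P s / s) +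
    s * deriv (fun s => (P s ^ 2 + R s ^ 2) ^ ((q - 1) / 2) * P s / s) s +
    (9 + a * q) * ((P s ^ 2 + R s ^ 2) ^ ((q - 1) / 2) * R s) -
      s * deriv (fun s => (P s ^ 2 + R s ^ 2) ^ ((q - 1) / 2) * R s) s = 0
  l0 : Tendsto (fun s => g s * (1 + s ^ 2) ^ (-(a + 1) / 2)) atTop (𝓝 M)
  l0' : Tendsto (fun s => g s * (1 + s ^ 2) ^ (-(a + 1) / 2)) (𝓝[>] 0) (𝓝 (-M))
  l1 : Tendsto (fun s => P s * (1 + s ^ 2) ^ (-a / 2)) atTop (𝓝 L)
  l1' : Tendsto (fun s => P s * (1 + s ^ 2) ^ (-a / 2)) (𝓝[>] 0) (𝓝 0)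
  l2 : Tendsto (fun s => R s * (1 + s ^ 2) ^ (-a / 2)) atTop (𝓝 0)
  l2' : Tendsto (fun s => R s * (1 + s ^ 2) ^ (-a / 2)) (𝓝[>] 0) (𝓝 (-L))
  b0 : ∀ s, 0 < s → |g s * (1 + s ^ 2) ^ (-(a + 1) / 2)| ≤ C
  b1 : ∀ s, 0 < s → |P s * (1 + s ^ 2) ^ (-a / 2)| ≤ C
  b2 : ∀ s, 0 < s → |R s * (1 + s ^ 2) ^ (-a / 2)| ≤ C
  s1 : ∀ s, 1 ≤ s → |R s| * s ≤ |P s|
  s2 : ∀ s, 0 < s → s ≤ 1 → |P s| ≤ s * |R s|
  g2 : 0 < g 2

lemma w_inv (b : ℝ) {s : ℝ} (hs : 0 < s) :
    (1 + s⁻¹ ^ 2) ^ (-b / 2) = s ^ b * (1 + s ^ 2) ^ (-b / 2) := by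
  rw [show 1 + s⁻¹ ^ 2 = s ^ (-2 : ℝ) * (1 + s ^ 2) by
      rw [rpow_neg hs.le, rpow_two]; field_simp; ring,
    mul_rpow (by positivity) (by positivity), ← rpow_mul hs.le]
  congr 2; ring

noncomputable def gg (a : ℝ) (v E : ℝ → ℝ) (s : ℝ) : ℝ := E s * (s * v s - 1) / (a + 1)

namespace Sol
variable {q a : ℝ} {v E : ℝ → ℝ} (h : Sol q a v E)
include h

lemma hg {s : ℝ} (hs : 0 < s) : HasDerivAt (gg a v E) (v s * E s) s := by
  refine (((h.hE s hs).mul (((hasDerivAt_id s).mul (h.hv s hs)).sub_const 1)).div_const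
    (a + 1)).congr_deriv ?_
  have := (Dn_pos h.hq hs (h.vpos s)).ne'
  have := h.vpos s
  have := h.a1
  simp only [ell, F, id, Pi.mul_apply]
  field_simp
  unfold Dn
  ring

lemma hdiv {s : ℝ} (hs : 0 < s) :
    10 * (((v s * E s) ^ 2 + (-E s) ^ 2) ^ ((q - 1) / 2) * (v s * E s) / s) +
    s * deriv (fun s => ((v s * E s) ^ 2 + (-E s) ^ 2) ^ ((q - 1) / 2) * (v s * E s) / s) s +
    (9 + a * q) * (((v s * E s) ^ 2 + (-E s) ^ 2) ^ ((q - 1) / 2) * (-E s)) -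
      s * deriv (fun s => ((v s * E s) ^ 2 + (-E s) ^ 2) ^ ((q - 1) / 2) * (-E s)) s = 0 := by
  have v0 := h.vpos s
  have E0 := h.Epos s
  have H0 : (v s * E s) ^ 2 + (-E s) ^ 2 ≠ 0 := by positivity
  have hP := (h.hv s hs).mul (h.hE s hs)
  have hR := (h.hE s hs).neg
  have h1 := ((hP.pow 2).add (hR.pow 2)).rpow_const (p := (q - 1) / 2) (Or.inl H0)
  have h2 := ((h1.mul hP).div (hasDerivAt_id s) hs.ne').deriv
  have h3 := (h1.mul hR).deriv
  erw [h2, h3]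
  have := (Dn_pos h.hq hs v0).ne'
  simp only [ell, F, Pi.add_apply, Pi.pow_apply, Pi.mul_apply, Pi.neg_apply, id]
  rw [rpow_sub_one H0]
  generalize ((v s * E s) ^ 2 + (-E s) ^ 2) ^ ((q - 1) / 2) = X
  have : (v s * E s) ^ 2 + (-E s) ^ 2 = E s ^ 2 * (1 + v s ^ 2) := by ring
  rw [this]
  field_simp
  unfold Dn
  ring

lemma hf {s : ℝ} (hs : 0 < s) : HasDerivAt (fun s => gg a v E s * ww a s)
    (E s * ww a s * (v s + s) / (1 + s ^ 2)) s := by
  refine ((h.hg hs).mul (ww_deriv a s)).congr_deriv ?_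
  have := h.a1
  simp only [gg]
  field_simp
  ring

lemma f_mono {s t : ℝ} (hs : 0 < s) (hst : s ≤ t) :
    gg a v E s * ww a s ≤ gg a v E t * ww a t := by
  refine le_of_deriv hst (fun x hx => h.hf (hs.trans_le hx.1)) (fun x hx => ?_)
  have x0 : 0 < x := hs.trans_le hx.1
  have := h.vpos x
  have := h.Epos x
  have := ww_pos a x
  positivity

lemma f_le {s : ℝ} (hs : 2 ≤ s) : gg a v E s * ww a s ≤ gg a v E 2 * ww a 2 * exp (3 / 2) := by
  have := le_of_deriv hs (fun x hx => ((h.hf (s := x) (by linarith [hx.1])).mul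
    (((hasDerivAt_inv (x := x) (by linarith [hx.1])).const_mul 3).exp)).neg) (fun x hx => ?_)
  · simp only [Pi.neg_apply, Pi.mul_apply, neg_le_neg_iff] at this
    refine le_trans ?_ (this.trans_eq (by norm_num))
    refine le_mul_of_one_le_right ?_ (one_le_exp (by have : 0 < s := by linarith
                                                     positivity))
    have := h.lo s (by linarith)
    have := h.Epos s
    have := ww_pos a s
    have := h.a1
    have : 0 ≤ s * v s - 1 := by nlinarith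
    unfold gg; positivity
  · have x2 : 2 ≤ x := hx.1
    have l1 := h.lo x (by linarith)
    have q0 : 0 < E x * ww a x := mul_pos (h.Epos x) (ww_pos _ _)
    have a1 := h.a1
    have e : -(E x * ww a x * (v x + x) / (1 + x ^ 2) * exp (3 * x⁻¹) +
        gg a v E x * ww a x * (exp (3 * x⁻¹) * (3 * -(x ^ 2)⁻¹))) =
        E x * ww a x * exp (3 * x⁻¹) * (3 * (x * v x - 1) * (1 + x ^ 2) -
          (a + 1) * (x ^ 2 * (v x + x))) / ((a + 1) * x ^ 2 * (1 + x ^ 2)) := by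
      have : x ≠ 0 := by linarith
      unfold gg; field_simp; ring
    rw [e]
    refine div_nonneg (mul_nonneg (by positivity) ?_) (by positivity)
    have e1 : (a + 1) * (x ^ 2 * (v x + x)) ≤ 5 / 2 * (x ^ 2 * (v x + x)) :=
      mul_le_mul_of_nonneg_right (by linarith [h.a2]) (by have := h.vpos x; positivity)
    obtain ⟨d, hd⟩ : ∃ d, v x = x + d := ⟨v x - x, by ring⟩
    obtain ⟨z, rfl⟩ : ∃ z, x = 2 + z := ⟨x - 2, by ring⟩
    have z0 : 0 ≤ z := by linarith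
    have d0 : 0 ≤ d := by linarith
    rw [hd] at e1 ⊢
    have : 3 * ((2 + z) * (2 + z + d) - 1) * (1 + (2 + z) ^ 2) - 5 / 2 * ((2 + z) ^ 2 * (2 + z + d + (2 + z)))
      = 5 + 36 * z + 42 * z ^ 2 + 19 * z ^ 3 + 3 * z ^ 4 +
        d * (20 + 29 * z + 31 / 2 * z ^ 2 + 3 * z ^ 3) := by ring
    have : 0 ≤ 5 + 36 * z + 42 * z ^ 2 + 19 * z ^ 3 + 3 * z ^ 4 +
        d * (20 + 29 * z + 31 / 2 * z ^ 2 + 3 * z ^ 3) := by positivity
    linarith

lemma f_lim : ∃ M, Tendsto (fun s => gg a v E s * ww a s) atTop (𝓝 M) := by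
  have m : Monotone fun s : ℝ => gg a v E (max s 2) * ww a (max s 2) := fun s t hst =>
    h.f_mono (lt_of_lt_of_le two_pos (le_max_right _ _)) (max_le_max_right _ hst)
  refine ⟨_, (tendsto_atTop_ciSup m ⟨gg a v E 2 * ww a 2 * exp (3 / 2), ?_⟩).congr' ?_⟩
  · rintro _ ⟨s, rfl⟩; exact h.f_le (le_max_right _ _)
  · filter_upwards [eventually_ge_atTop 2] with s hs
    rw [max_eq_left hs]

lemma q_bd : ∃ C, ∀ s, 1 ≤ s → E s * ww a s * (1 + s ^ 2) ≤ C := by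
  have c : ContinuousOn (fun s => E s * ww a s * (1 + s ^ 2)) (Icc 1 2) := fun s hs =>
    (((h.hE s (by linarith [hs.1])).continuousAt.mul (ww_deriv a s).continuousAt).mul
      (by fun_prop)).continuousWithinAt
  obtain ⟨C, hC⟩ := isCompact_Icc.exists_bound_of_continuousOn c
  refine ⟨max C (5 * (gg a v E 2 * ww a 2 * exp (3 / 2))), fun s hs => ?_⟩
  rcases le_total s 2 with h1 | h1
  · exact ((le_abs_self _).trans (hC s ⟨hs, h1⟩)).trans (le_max_left _ _)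
  · refine le_trans ?_ (le_max_right _ _)
    have e1 := h.f_le h1
    have e2 := h.lo s hs
    have q0 : 0 < E s * ww a s := mul_pos (h.Epos _) (ww_pos _ _)
    have a1 := h.a1
    have e4 : (a + 1) * (1 + s ^ 2) ≤ 5 * (s * v s - 1) := by nlinarith [h.a2]
    have e5 := mul_le_mul_of_nonneg_left e4 q0.le
    refine le_trans ?_ (mul_le_mul_of_nonneg_left e1 (by norm_num))
    unfold gg
    rw [div_mul_eq_mul_div, ← mul_div_assoc, le_div_iff₀ (by linarith)]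
    linarith

lemma F1_lim {M : ℝ} (hM : Tendsto (fun s => gg a v E s * ww a s) atTop (𝓝 M)) :
    Tendsto (fun s => v s * E s * (1 + s ^ 2) ^ (-a / 2)) atTop (𝓝 ((a + 1) * M)) := by
  have t1 : Tendsto (fun s : ℝ => √(s⁻¹ ^ 2 + 1)) atTop (𝓝 1) := by
    have : Tendsto (fun s : ℝ => s⁻¹ ^ 2 + 1) atTop (𝓝 (0 ^ 2 + 1)) :=
      (tendsto_inv_atTop_zero.pow 2).add_const 1
    simpa using this.sqrt
  have big : ∀ s : ℝ, 2 ≤ s → 2 * s ≤ s * v s := fun s hs => by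
    have := h.lo s (by linarith)
    nlinarith
  have t2 : Tendsto (fun s : ℝ => (s * v s)⁻¹) atTop (𝓝 0) := by
    refine tendsto_inv_atTop_zero.comp (tendsto_atTop_mono' _ ?_ tendsto_id)
    filter_upwards [eventually_ge_atTop 2] with s hs
    have := big s hs
    simp only [id]; linarith
  have t3 := ((hM.const_mul (a + 1)).mul t1).div (t2.const_sub 1) (by norm_num)
  simp only [mul_one, sub_zero, div_one] at t3
  refine t3.congr' ?_
  filter_upwards [eventually_ge_atTop 2] with s hs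
  have b := big s hs
  have s0 : 0 < s := by linarith
  have e : √(1 + s ^ 2) = s * √(s⁻¹ ^ 2 + 1) := by
    rw [show 1 + s ^ 2 = s ^ 2 * (s⁻¹ ^ 2 + 1) by field_simp, Real.sqrt_mul (by positivity),
      Real.sqrt_sq s0.le]
  have n1 : s * v s - 1 ≠ 0 := by linarith
  have n2 := h.vpos s
  have := h.a1
  rw [ww_sqrt, e]
  simp only [Pi.div_apply, gg]
  field_simp

lemma inv0 {s : ℝ} (hs : 0 < s) : gg a v E s⁻¹ * (1 + s⁻¹ ^ 2) ^ (-(a + 1) / 2) =
    -(gg a v E s * (1 + s ^ 2) ^ (-(a + 1) / 2)) := by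
  have := h.vpos s
  have := h.a1
  have : 0 < s ^ a := by positivity
  rw [w_inv _ hs, gg, gg, h.vinv s hs, h.Einv s hs, rpow_add_one hs.ne']
  field_simp
  ring

lemma inv1 {s : ℝ} (hs : 0 < s) : v s⁻¹ * E s⁻¹ * (1 + s⁻¹ ^ 2) ^ (-a / 2) =
    -(-E s * (1 + s ^ 2) ^ (-a / 2)) := by
  have := h.vpos s
  have : 0 < s ^ a := by positivity
  rw [w_inv _ hs, h.vinv s hs, h.Einv s hs]
  field_simp

lemma inv2 {s : ℝ} (hs : 0 < s) : -E s⁻¹ * (1 + s⁻¹ ^ 2) ^ (-a / 2) =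
    -(v s * E s * (1 + s ^ 2) ^ (-a / 2)) := by
  have : 0 < s ^ a := by positivity
  rw [w_inv _ hs, h.Einv s hs]
  field_simp

end Sol

lemma lim_inv {f g : ℝ → ℝ} {L : ℝ} (h : ∀ s, 0 < s → f s⁻¹ = -g s) (hg : Tendsto g atTop (𝓝 L)) :
    Tendsto f (𝓝[>] 0) (𝓝 (-L)) := by
  refine (hg.comp tendsto_inv_nhdsGT_zero).neg.congr' ?_
  filter_upwards [self_mem_nhdsWithin] with s hs
  have := h s⁻¹ (inv_pos.2 hs)
  rw [inv_inv] at this
  exact this.symm

lemma bd_inv {f g : ℝ → ℝ} {C : ℝ} (h : ∀ s, 0 < s → f s⁻¹ = -g s) (hf : ∀ s, 1 ≤ s → |f s| ≤ C)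
    (hg : ∀ s, 1 ≤ s → |g s| ≤ C) (s : ℝ) (hs : 0 < s) : |f s| ≤ C := by
  rcases le_total 1 s with h1 | h1
  · exact hf s h1
  · have := h s⁻¹ (inv_pos.2 hs)
    rw [inv_inv] at this
    rw [this, abs_neg]
    exact hg _ ((one_le_inv₀ hs).2 h1)

theorem Sol.prof {q a : ℝ} {v E : ℝ → ℝ} (h : Sol q a v E) :
    ∃ M L C, Prof q a M L C (gg a v E) (fun s => v s * E s) (fun s => -E s) := by
  obtain ⟨M, hM⟩ := h.f_lim
  obtain ⟨C, hC⟩ := h.q_bd
  have a1 := h.a1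
  have q0 : ∀ s, 0 < E s * ww a s := fun s => mul_pos (h.Epos _) (ww_pos _ _)
  have C0 : 0 ≤ C := le_trans (by have := q0 1; positivity) (hC 1 le_rfl)
  have s2 : ∀ s : ℝ, 1 ≤ √(1 + s ^ 2) := fun s => Real.one_le_sqrt.2 (by nlinarith)
  have s1 : ∀ s : ℝ, s ≤ √(1 + s ^ 2) := fun s => Real.le_sqrt_of_sq_le (by linarith)
  have s3 : ∀ s : ℝ, √(1 + s ^ 2) * √(1 + s ^ 2) = 1 + s ^ 2 := fun s =>
    Real.mul_self_sqrt (by positivity)
  have k2 : ∀ s, 1 ≤ s → |-E s * (1 + s ^ 2) ^ (-a / 2)| * √(1 + s ^ 2) ≤ C := fun s hs => by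
    rw [ww_sqrt, neg_mul, abs_neg, ← mul_assoc,
      abs_of_pos (mul_pos (q0 s) (by linarith [s2 s])), mul_assoc, s3]
    exact hC s hs
  have l2 : Tendsto (fun s => -E s * (1 + s ^ 2) ^ (-a / 2)) atTop (𝓝 0) := by
    refine squeeze_zero_norm' (a := fun s => C / s) ?_ (tendsto_const_nhds.div_atTop tendsto_id)
    filter_upwards [eventually_ge_atTop 1] with s hs
    rw [le_div_iff₀ (by linarith)]
    exact (mul_le_mul_of_nonneg_left (s1 s) (abs_nonneg _)).trans (k2 s hs)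
  have b0 : ∀ s, 1 ≤ s → |gg a v E s * (1 + s ^ 2) ^ (-(a + 1) / 2)| ≤ 2 * C := fun s hs => by
    have l1 := h.lo s hs
    have l2 := h.hi s hs
    have e : gg a v E s * (1 + s ^ 2) ^ (-(a + 1) / 2) = E s * ww a s * ((s * v s - 1) / (a + 1)) := by
      unfold gg ww; ring
    have e1 : 0 ≤ s * v s - 1 := by nlinarith
    have e2 : (s * v s - 1) / (a + 1) ≤ 1 + s ^ 2 := by
      rw [div_le_iff₀ (by linarith)]; nlinarith
    have := q0 s
    rw [e, abs_of_nonneg (by positivity)]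
    linarith [hC s hs, mul_le_mul_of_nonneg_left e2 this.le]
  have b1 : ∀ s, 1 ≤ s → |v s * E s * (1 + s ^ 2) ^ (-a / 2)| ≤ 2 * C := fun s hs => by
    have l2 := h.hi s hs
    have e : v s * E s * (1 + s ^ 2) ^ (-a / 2) = E s * ww a s * (v s * √(1 + s ^ 2)) := by
      rw [ww_sqrt]; ring
    have e2 : v s * √(1 + s ^ 2) ≤ 2 * (1 + s ^ 2) := by
      have := mul_le_mul_of_nonneg_right (show v s ≤ 2 * √(1 + s ^ 2) by linarith [s1 s])
        (sqrt_nonneg (1 + s ^ 2))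
      rwa [mul_assoc, s3] at this
    have := q0 s
    have := h.vpos s
    rw [e, abs_of_nonneg (by positivity)]
    linarith [hC s hs, mul_le_mul_of_nonneg_left e2 (q0 s).le]
  have b2 : ∀ s, 1 ≤ s → |-E s * (1 + s ^ 2) ^ (-a / 2)| ≤ 2 * C := fun s hs =>
    ((le_mul_of_one_le_right (abs_nonneg _) (s2 s)).trans (k2 s hs)).trans (by linarith)
  refine ⟨M, (a + 1) * M, 2 * C, h.hq, h.a1, h.a2, fun s hs => h.hg hs, fun s => ?_,
    fun s hs => (h.cv s hs).mul (h.cE s hs), fun s hs => (h.cE s hs).neg, fun s => ?_,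
    fun s hs => h.hdiv hs, hM, lim_inv (fun s hs => h.inv0 hs) hM, h.F1_lim hM, ?_, l2,
    lim_inv (fun s hs => h.inv2 hs) (h.F1_lim hM), bd_inv (fun s hs => h.inv0 hs) b0 b0,
    bd_inv (fun s hs => h.inv1 hs) b1 b2, bd_inv (fun s hs => h.inv2 hs) b2 b1,
    fun s hs => ?_, fun s hs h1 => ?_, ?_⟩
  · unfold gg; field_simp; ring
  · have := h.Epos s; have := h.vpos s; positivity
  · simpa using lim_inv (fun s hs => h.inv1 hs) l2
  · have := h.Epos s
    rw [abs_neg, abs_of_pos this, abs_of_pos (mul_pos (h.vpos s) this), mul_comm]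
    exact mul_le_mul_of_nonneg_right (h.lo s hs) this.le
  · have := h.Epos s
    rw [abs_neg, abs_of_pos this, abs_of_pos (mul_pos (h.vpos s) this)]
    refine mul_le_mul_of_nonneg_right ?_ this.le
    have e := h.lo s⁻¹ ((one_le_inv₀ hs).2 h1)
    rwa [h.vinv s hs, inv_le_inv₀ hs (h.vpos s)] at e
  · have := h.lo 2 one_le_two
    have := h.Epos 2
    have : 0 < 2 * v 2 - 1 := by linarith
    unfold gg; positivity

theorem exists_prof {q : ℝ} (hq : 0 < q) (hq' : q < 2 / 3) :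
    ∃ a M L C g P R, Prof q a M L C g P R := by
  obtain ⟨a, v, r, h⟩ := exists_sol hq hq'
  obtain ⟨M, L, C, hp⟩ := h.prof
  exact ⟨a, M, L, C, _, _, _, hp⟩

end Pool.Agent.H.MP_c081e6_an
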