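import Pool.Agent.H.MP_c081e6_an.B

open Set Filter Topology Metric
open scoped RealInnerProductSpace
open Pool.Agent.H.MP_f4f698_an (Sp ee inner_ee inner_ee' norm_ee hX sum_inner)

namespace Pool.Agent.H.MP_c081e6_an

variable {n : ℕ} (S : Finset (Fin n))

noncomputable def Pr : Sp n →L[ℝ] Sp n :=
  ∑ i ∈ S, (EuclideanSpace.proj i : Sp n →L[ℝ] ℝ).smulRight (ee i)

lemma Pr_apply (y : Sp n) (i : Fin n) : Pr S y i = if i ∈ S then y i else 0 := by
  simp [Pr, ee, Pi.single_apply, Finset.sum_apply]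

lemma inner_Pr (y h : Sp n) : ⟪Pr S y, Pr S h⟫ = ⟪Pr S y, h⟫ := by
  simp only [← sum_inner, Pr_apply]
  exact Finset.sum_congr rfl fun i _ => by split_ifs <;> simp

lemma inner_Pr' (y h : Sp n) : ⟪Pr S y, Pr Sᶜ h⟫ = 0 := by
  simp only [← sum_inner, Pr_apply, Finset.mem_compl]
  exact Finset.sum_eq_zero fun i _ => by split_ifs <;> simp

lemma norm_comb (p q : ℝ) (y : Sp n) :
    ‖p • Pr S y + q • Pr Sᶜ y‖ ^ 2 = p ^ 2 * ‖Pr S y‖ ^ 2 + q ^ 2 * ‖Pr Sᶜ y‖ ^ 2 := by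
  rw [norm_add_sq_real, inner_smul_left, inner_smul_right, inner_Pr', norm_smul, norm_smul]
  simp [mul_pow]

lemma Pr_add (y : Sp n) : Pr S y + Pr Sᶜ y = y := by
  ext i
  simp only [PiLp.add_apply, Pr_apply, Finset.mem_compl]
  split_ifs <;> simp

lemma norm_sq_eq (y : Sp n) : ‖y‖ ^ 2 = ‖Pr S y‖ ^ 2 + ‖Pr Sᶜ y‖ ^ 2 := by
  have := norm_comb S 1 1 y
  simpa [Pr_add] using this

lemma abs_le_Pr {i : Fin n} (hi : i ∈ S) (y : Sp n) : |y i| ≤ ‖Pr S y‖ := by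
  have := PiLp.norm_apply_le (Pr S y) i
  rwa [Pr_apply, if_pos hi] at this

lemma hZ2 (y : Sp n) : HasFDerivAt (fun y => ‖Pr S y‖ ^ 2) (innerSL ℝ ((2 : ℝ) • Pr S y)) y := by
  refine ((Pr S).hasFDerivAt (x := y)).norm_sq.congr_fderiv ?_
  ext h
  simp [inner_Pr]

lemma hZ {y : Sp n} (hy : ‖Pr S y‖ ≠ 0) :
    HasFDerivAt (fun y => ‖Pr S y‖) (innerSL ℝ (‖Pr S y‖⁻¹ • Pr S y)) y := by
  have := (hZ2 S y).sqrt (pow_ne_zero 2 hy)
  simp only [Real.sqrt_sq (norm_nonneg _)] at this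
  refine this.congr_fderiv ?_
  ext h
  simp only [smul_apply, innerSL_apply_apply, inner_smul_left, smul_eq_mul]
  simp
  field_simp

lemma hom {y : Sp n} (hx : ‖Pr S y‖ ≠ 0) (hy : ‖Pr Sᶜ y‖ ≠ 0) {H : ℝ → ℝ} {H' : ℝ} (b : ℝ)
    (hH : HasDerivAt H H' (‖Pr S y‖ / ‖Pr Sᶜ y‖)) :
    HasFDerivAt (fun y => ‖Pr Sᶜ y‖ ^ b * H (‖Pr S y‖ / ‖Pr Sᶜ y‖))
      (innerSL ℝ ((‖Pr Sᶜ y‖ ^ (b - 1) * H' / ‖Pr S y‖) • Pr S y +
        (‖Pr Sᶜ y‖ ^ (b - 1) * (b * H (‖Pr S y‖ / ‖Pr Sᶜ y‖) - ‖Pr S y‖ / ‖Pr Sᶜ y‖ * H') /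
          ‖Pr Sᶜ y‖) • Pr Sᶜ y)) y := by
  have h1 := (hZ Sᶜ hy).rpow_const (p := b) (Or.inl hy)
  have h2 : HasFDerivAt (fun y : Sp n => ‖Pr S y‖ / ‖Pr Sᶜ y‖) _ y :=
    (hZ S hx).mul ((hasDerivAt_inv hy).comp_hasFDerivAt y (hZ Sᶜ hy))
  have h3 := hH.comp_hasFDerivAt y h2
  refine (h1.mul h3).congr_fderiv ?_
  ext h
  simp only [add_apply, smul_apply, innerSL_apply_apply,
    inner_smul_left, inner_add_left, smul_eq_mul, Function.comp, conj_trivial]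
  rw [Real.rpow_sub_one hy]
  field_simp
  ring

lemma pos_of {y : Sp n} (hx : ‖Pr S y‖ ≠ 0) (hy : ‖Pr Sᶜ y‖ ≠ 0) : 0 < ‖Pr S y‖ / ‖Pr Sᶜ y‖ :=
  div_pos (lt_of_le_of_ne (norm_nonneg _) (Ne.symm hx)) (lt_of_le_of_ne (norm_nonneg _) (Ne.symm hy))

lemma cd_hom {y : Sp n} (hx : ‖Pr S y‖ ≠ 0) (hy : ‖Pr Sᶜ y‖ ≠ 0) {H : ℝ → ℝ}
    (hH : ∀ s, 0 < s → ContDiffAt ℝ 1 H s) (b : ℝ) :
    ContDiffAt ℝ 1 (fun y => ‖Pr Sᶜ y‖ ^ b * H (‖Pr S y‖ / ‖Pr Sᶜ y‖)) y := by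
  have h1 : ContDiffAt ℝ 1 (fun y => ‖Pr Sᶜ y‖) y :=
    (Pr Sᶜ).contDiff.contDiffAt.norm ℝ (norm_ne_zero_iff.1 hy)
  have h2 : ContDiffAt ℝ 1 (fun y => ‖Pr S y‖) y :=
    (Pr S).contDiff.contDiffAt.norm ℝ (norm_ne_zero_iff.1 hx)
  exact (h1.rpow_const_of_ne hy).mul ((hH _ (pos_of S hx hy)).comp y (h2.div h1 hy))

noncomputable def T (F : ℝ → ℝ) (L L' b : ℝ) (y : Sp n) : ℝ :=
  ‖y‖ ^ b * (if ‖Pr Sᶜ y‖ = 0 then L else if ‖Pr S y‖ = 0 then L' else F (‖Pr S y‖ / ‖Pr Sᶜ y‖))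

lemma cont_T {F : ℝ → ℝ} {L L' b C : ℝ} (hb : 0 < b) (hF : ∀ s, 0 < s → ContinuousAt F s)
    (hC : ∀ s, 0 < s → |F s| ≤ C)
    (h1 : Tendsto F atTop (𝓝 L)) (h2 : Tendsto F (𝓝[>] 0) (𝓝 L')) : Continuous (T S F L L' b) := by
  have cn : Continuous fun y : Sp n => ‖y‖ ^ b :=
    continuous_norm.rpow_const fun _ => Or.inr hb.le
  have cZ : Continuous fun y : Sp n => ‖Pr Sᶜ y‖ := by fun_prop
  have cX : Continuous fun y : Sp n => ‖Pr S y‖ := by fun_prop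
  rw [continuous_iff_continuousAt]
  intro y
  by_cases hy : ‖Pr Sᶜ y‖ = 0
  · by_cases hx : ‖Pr S y‖ = 0
    · have y0 : y = 0 := by
        have := norm_sq_eq S y
        rw [hx, hy] at this
        simpa using this
      subst y0
      have e : T S F L L' b 0 = 0 := by simp [T, hb.ne']
      rw [ContinuousAt, e]
      refine squeeze_zero_norm (a := fun w : Sp n => ‖w‖ ^ b * max C (max |L| |L'|)) (fun w => ?_) ?_
      · rw [T, norm_mul, Real.norm_of_nonneg (by positivity)]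
        refine mul_le_mul_of_nonneg_left ?_ (by positivity)
        split_ifs with k1 k2
        · exact le_max_of_le_right (le_max_left _ _)
        · exact le_max_of_le_right (le_max_right _ _)
        · exact le_max_of_le_left (hC _ (pos_of S k2 k1))
      · have := (cn.tendsto 0).mul_const (max C (max |L| |L'|))
        simpa [hb.ne'] using this
    · have inv : Tendsto (fun w : Sp n => ‖Pr Sᶜ w‖⁻¹) (𝓝 y ⊓ 𝓟 {w | ¬ ‖Pr Sᶜ w‖ = 0}) atTop := by
        refine tendsto_inv_nhdsGT_zero.comp (tendsto_nhdsWithin_iff.2 ⟨?_, ?_⟩)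
        · rw [← hy]; exact (cZ.tendsto y).mono_left inf_le_left
        · refine eventually_inf_principal.2 (Eventually.of_forall fun w hw => ?_)
          exact lt_of_le_of_ne (norm_nonneg _) (Ne.symm hw)
      refine cn.continuousAt.mul ?_
      simp only [ContinuousAt, if_pos hy]
      refine Tendsto.if tendsto_const_nhds ?_
      refine (h1.comp (((cX.tendsto y).mono_left inf_le_left).pos_mul_atTop
        (lt_of_le_of_ne (norm_nonneg _) (Ne.symm hx)) inv)).congr' ?_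
      filter_upwards [(cX.continuousAt.eventually_ne hx).filter_mono inf_le_left] with w hw
      rw [if_neg hw]; rfl
  · refine cn.continuousAt.mul ?_
    have cq : ContinuousAt (fun w : Sp n => ‖Pr S w‖ / ‖Pr Sᶜ w‖) y :=
      cX.continuousAt.div cZ.continuousAt hy
    by_cases hx : ‖Pr S y‖ = 0
    · have : Tendsto (fun w : Sp n => if ‖Pr S w‖ = 0 then L' else F (‖Pr S w‖ / ‖Pr Sᶜ w‖))
          (𝓝 y) (𝓝 L') := by
        refine Tendsto.if tendsto_const_nhds (h2.comp (tendsto_nhdsWithin_iff.2 ⟨?_, ?_⟩))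
        · have := cq.tendsto
          rw [hx, zero_div] at this
          exact this.mono_left inf_le_left
        · refine eventually_inf_principal.2 ?_
          filter_upwards [cZ.continuousAt.eventually_ne hy] with w hw hw'
          exact pos_of S hw' hw
      simp only [ContinuousAt, if_neg hy, if_pos hx]
      refine this.congr' ?_
      filter_upwards [cZ.continuousAt.eventually_ne hy] with w hw
      rw [if_neg hw]
    · refine ((hF _ (pos_of S hx hy)).comp (f := fun w : Sp n => ‖Pr S w‖ / ‖Pr Sᶜ w‖) cq).congr ?_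
      filter_upwards [cZ.continuousAt.eventually_ne hy, cX.continuousAt.eventually_ne hx]
        with w hw hw'
      simp only [if_neg hw, if_neg hw', Function.comp]

lemma T_off {y : Sp n} (hx : ‖Pr S y‖ ≠ 0) (hy : ‖Pr Sᶜ y‖ ≠ 0) (H : ℝ → ℝ) (L L' b : ℝ) :
    T S (fun s => H s * (1 + s ^ 2) ^ (-b / 2)) L L' b y =
      ‖Pr Sᶜ y‖ ^ b * H (‖Pr S y‖ / ‖Pr Sᶜ y‖) := by
  have z0 : 0 < ‖Pr Sᶜ y‖ := lt_of_le_of_ne (norm_nonneg _) (Ne.symm hy)
  have e : ‖y‖ = ‖Pr Sᶜ y‖ * (1 + (‖Pr S y‖ / ‖Pr Sᶜ y‖) ^ 2) ^ (1 / 2 : ℝ) := by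
    rw [← Real.sqrt_eq_rpow, ← Real.sqrt_sq z0.le, ← Real.sqrt_mul (by positivity),
      Real.sqrt_sq z0.le, ← Real.sqrt_sq (norm_nonneg y), norm_sq_eq S y]
    congr 1
    field_simp
    ring
  have p : 0 < 1 + (‖Pr S y‖ / ‖Pr Sᶜ y‖) ^ 2 := by positivity
  rw [T, if_neg hy, if_neg hx, e, Real.mul_rpow z0.le (by positivity), ← Real.rpow_mul p.le]
  have : (1 + (‖Pr S y‖ / ‖Pr Sᶜ y‖) ^ 2) ^ (1 / 2 * b) *
      (1 + (‖Pr S y‖ / ‖Pr Sᶜ y‖) ^ 2) ^ (-b / 2) = 1 := by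
    rw [← Real.rpow_add p, show 1 / 2 * b + -b / 2 = 0 by ring, Real.rpow_zero]
  linear_combination (‖Pr Sᶜ y‖ ^ b * H (‖Pr S y‖ / ‖Pr Sᶜ y‖)) * this

lemma cont_dir {t : Sp n → ℝ} (ht : Continuous t) (h0 : ∀ y, y ≠ 0 → ‖Pr S y‖ = 0 → t y = 0)
    (h00 : t 0 = 0) : Continuous fun y => (t y / ‖Pr S y‖) • Pr S y := by
  have cZ : Continuous fun y : Sp n => ‖Pr S y‖ := by fun_prop
  rw [continuous_iff_continuousAt]
  intro y
  by_cases hy : ‖Pr S y‖ = 0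
  · have e : t y = 0 := by
      rcases eq_or_ne y 0 with rfl | y0
      exacts [h00, h0 y y0 hy]
    rw [ContinuousAt, e, zero_div, zero_smul]
    refine squeeze_zero_norm (a := fun w => |t w|) (fun w => ?_) ?_
    · rw [norm_smul, norm_div, norm_norm, Real.norm_eq_abs]
      rcases eq_or_ne ‖Pr S w‖ 0 with e | e
      · simp [e]
      · rw [div_mul_cancel₀ _ e]
    · have := (ht.tendsto y).abs
      rwa [e, abs_zero] at this
  · exact (ht.continuousAt.div cZ.continuousAt hy).smul (by fun_prop)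

lemma glue {i j : Fin n} (hij : i ≠ j) {u : Sp n → ℝ} {G : Sp n → Sp n} (hu : Continuous u)
    (hG : Continuous G)
    (h : ∀ y : Sp n, y i ≠ 0 → y j ≠ 0 → HasFDerivAt u (innerSL ℝ (G y)) y) (y : Sp n) :
    HasFDerivAt u (innerSL ℝ (G y)) y := by
  have key : ∀ c d : ℝ, c ≠ 0 → d ≠ 0 →
      HasFDerivWithinAt u (innerSL ℝ (G y)) {w : Sp n | 0 ≤ c * w i ∧ 0 ≤ d * w j} y := by
    intro c d hc hd
    have ne : ∀ (c x : ℝ), 0 < c * x → x ≠ 0 := fun c x hw e => by simp [e] at hw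
    have cv : ∀ (c : ℝ) (i : Fin n), Convex ℝ {w : Sp n | 0 < c * w i} := fun c i =>
      convex_halfSpace_gt (f := fun w : Sp n => c * w i)
        ⟨fun a b => by simp [mul_add], fun a b => by simp; ring⟩ 0
    have op : ∀ (c : ℝ) (i : Fin n), IsOpen {w : Sp n | 0 < c * w i} := fun c i =>
      isOpen_lt continuous_const (by fun_prop)
    have := hasFDerivWithinAt_closure_of_tendsto_fderiv (f := u)
      (s := {w : Sp n | 0 < c * w i} ∩ {w : Sp n | 0 < d * w j}) (x := y) (f' := innerSL ℝ (G y))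
      (fun w hw => (h w (ne _ _ hw.1) (ne _ _ hw.2)).differentiableAt.differentiableWithinAt)
      ((cv c i).inter (cv d j)) ((op c i).inter (op d j)) (fun w _ => hu.continuousWithinAt) ?_
    · refine this.mono fun w hw => ?_
      have t : Tendsto (fun t : ℝ => w + (t * c) • ee i + (t * d) • ee j) (𝓝[>] 0) (𝓝 w) := by
        refine tendsto_nhdsWithin_of_tendsto_nhds (Continuous.tendsto' (by fun_prop) _ _ (by simp))
      refine mem_closure_of_tendsto t ?_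
      filter_upwards [self_mem_nhdsWithin] with t ht
      have ht : 0 < t := ht
      have : 0 < t * c ^ 2 := by positivity
      have : 0 < t * d ^ 2 := by positivity
      obtain ⟨w1, w2⟩ := hw
      constructor
      · simp [ee, hij]
        nlinarith
      · simp [ee, hij.symm]
        nlinarith
    · have c1 : Continuous fun w => innerSL ℝ (G w) := (innerSL ℝ).continuous.comp hG
      refine ((c1.tendsto y).mono_left nhdsWithin_le_nhds).congr' ?_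
      filter_upwards [self_mem_nhdsWithin] with w hw
      exact (h w (ne _ _ hw.1) (ne _ _ hw.2)).fderiv.symm
  have m : (-1 : ℝ) ≠ 0 := by norm_num
  have := ((key 1 1 one_ne_zero one_ne_zero).union (key 1 (-1) one_ne_zero m)).union
    ((key (-1) 1 m one_ne_zero).union (key (-1) (-1) m m))
  rw [← hasFDerivWithinAt_univ]
  refine this.mono fun w _ => ?_
  rcases le_total 0 (w i) with h1 | h1 <;> rcases le_total 0 (w j) with h2 | h2 <;>
    simp [h1, h2]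

end Pool.Agent.H.MP_c081e6_an
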