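import Pool.Agent.H.MP_c081e6_an.C

open Set Filter Topology Metric MeasureTheory
open scoped RealInnerProductSpace
open Pool.Agent.H.MP_f4f698_an (Sp ee inner_ee inner_ee' norm_ee hX sum_inner cont_w)

namespace Pool.Agent.H.MP_c081e6_an

variable {n : ℕ} (S : Finset (Fin n))

noncomputable def uu (a M : ℝ) (g : ℝ → ℝ) : Sp n → ℝ :=
  T S (fun s => g s * (1 + s ^ 2) ^ (-(a + 1) / 2)) M (-M) (a + 1)

noncomputable def T1 (a L : ℝ) (P : ℝ → ℝ) : Sp n → ℝ :=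
  T S (fun s => P s * (1 + s ^ 2) ^ (-a / 2)) L 0 a

noncomputable def T2 (a L : ℝ) (R : ℝ → ℝ) : Sp n → ℝ :=
  T S (fun s => R s * (1 + s ^ 2) ^ (-a / 2)) 0 (-L) a

noncomputable def GG (a L : ℝ) (P R : ℝ → ℝ) (y : Sp n) : Sp n :=
  (T1 S a L P y / ‖Pr S y‖) • Pr S y + (T2 S a L R y / ‖Pr Sᶜ y‖) • Pr Sᶜ y

noncomputable def WW (q a L : ℝ) (P R : ℝ → ℝ) (y : Sp n) : Sp n :=
  ‖GG S a L P R y‖ ^ (q - 1) • GG S a L P R y

lemma cont_flux {q : ℝ} (hq : 0 < q) : Continuous fun x : Sp n => ‖x‖ ^ (q - 1) • x := by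
  rw [continuous_iff_continuousAt]
  intro y
  rcases eq_or_ne y 0 with rfl | hy
  · rw [ContinuousAt, smul_zero]
    refine squeeze_zero_norm (a := fun w : Sp n => ‖w‖ ^ q) (fun w => ?_) ?_
    · rcases eq_or_ne w 0 with rfl | hw
      · simp; positivity
      · rw [norm_smul, Real.norm_of_nonneg (by positivity),
          Real.rpow_sub_one (norm_ne_zero_iff.2 hw), div_mul_cancel₀ _ (norm_ne_zero_iff.2 hw)]
    · have := (continuous_norm.rpow_const (p := q) fun _ : Sp n => Or.inr hq.le).tendsto 0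
      simpa [hq.ne'] using this
  · exact (continuous_norm.continuousAt.rpow_const (Or.inl (norm_ne_zero_iff.2 hy))).smul
      continuousAt_id

lemma G_off {a L : ℝ} {P R : ℝ → ℝ} {y : Sp n} (hx : ‖Pr S y‖ ≠ 0) (hy : ‖Pr Sᶜ y‖ ≠ 0) :
    GG S a L P R y = (‖Pr Sᶜ y‖ ^ a * P (‖Pr S y‖ / ‖Pr Sᶜ y‖) / ‖Pr S y‖) • Pr S y +
      (‖Pr Sᶜ y‖ ^ a * R (‖Pr S y‖ / ‖Pr Sᶜ y‖) / ‖Pr Sᶜ y‖) • Pr Sᶜ y := by
  rw [GG, T1, T2, T_off S hx hy, T_off S hx hy]

lemma W_off {q a L : ℝ} {P R : ℝ → ℝ} {y : Sp n} (hx : ‖Pr S y‖ ≠ 0) (hy : ‖Pr Sᶜ y‖ ≠ 0)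
    (i : Fin n) : WW S q a L P R y i = ‖Pr Sᶜ y‖ ^ (a * q - 1) *
      (if i ∈ S then (fun s => (P s ^ 2 + R s ^ 2) ^ ((q - 1) / 2) * P s / s)
        else (fun s => (P s ^ 2 + R s ^ 2) ^ ((q - 1) / 2) * R s)) (‖Pr S y‖ / ‖Pr Sᶜ y‖) * y i := by
  have z0 : 0 < ‖Pr Sᶜ y‖ := lt_of_le_of_ne (norm_nonneg _) (Ne.symm hy)
  have e1 : ‖GG S a L P R y‖ ^ 2 = (‖Pr Sᶜ y‖ ^ a) ^ 2 *
      (P (‖Pr S y‖ / ‖Pr Sᶜ y‖) ^ 2 + R (‖Pr S y‖ / ‖Pr Sᶜ y‖) ^ 2) := by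
    rw [G_off S hx hy, norm_comb]; field_simp
  have e2 : ‖GG S a L P R y‖ ^ (q - 1) = ‖Pr Sᶜ y‖ ^ (a * q) / ‖Pr Sᶜ y‖ ^ a *
      (P (‖Pr S y‖ / ‖Pr Sᶜ y‖) ^ 2 + R (‖Pr S y‖ / ‖Pr Sᶜ y‖) ^ 2) ^ ((q - 1) / 2) := by
    rw [show q - 1 = (2 : ℕ) * ((q - 1) / 2) by push_cast; ring,
      Real.rpow_natCast_mul (norm_nonneg _), e1, Real.mul_rpow (by positivity) (by positivity),
      ← Real.rpow_natCast, ← Real.rpow_mul z0.le, ← Real.rpow_mul z0.le, ← Real.rpow_sub z0]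
    congr 2
    · push_cast; ring
    · push_cast; ring
  have p : 0 < ‖Pr Sᶜ y‖ ^ a := by positivity
  rw [WW, e2, G_off S hx hy, Real.rpow_sub_one hy]
  simp only [PiLp.smul_apply, PiLp.add_apply, Pr_apply, smul_eq_mul, Finset.mem_compl]
  by_cases hi : i ∈ S
  · simp only [hi, if_true, not_true, if_false]
    field_simp
    ring
  · simp only [hi, if_true, not_false_eq_true, if_false]
    field_simp
    ring

namespace Prof
variable {q a M L C : ℝ} {g P R : ℝ → ℝ} (h : Prof q a M L C g P R)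
include h

lemma cu : Continuous (uu S a M g) :=
  cont_T S (by linarith [h.a1])
    (fun s hs => (h.hg s hs).continuousAt.mul (cont_w _).continuousAt) h.b0 h.l0 h.l0'

lemma c1 : Continuous (T1 S a L P) :=
  cont_T S (by linarith [h.a1])
    (fun s hs => (h.cP s hs).continuousAt.mul (cont_w _).continuousAt) h.b1 h.l1 h.l1'

lemma c2 : Continuous (T2 S a L R) :=
  cont_T S (by linarith [h.a1])
    (fun s hs => (h.cR s hs).continuousAt.mul (cont_w _).continuousAt) h.b2 h.l2 h.l2'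

lemma cG : Continuous (GG S a L P R) := by
  have a0 : a ≠ 0 := by linarith [h.a1]
  refine (cont_dir S (h.c1 S) (fun y y0 hy => ?_) (by simp [T1, T, a0])).add
    (cont_dir Sᶜ (h.c2 S) (fun y _ hy => by simp [T2, T, hy]) (by simp [T2, T]))
  have : ‖Pr Sᶜ y‖ ≠ 0 := fun e => by
    have := norm_sq_eq S y
    rw [hy, e] at this
    simp at this
    exact y0 this
  rw [T1, T, if_neg this, if_pos hy, mul_zero]

lemma du_off {y : Sp n} (hx : ‖Pr S y‖ ≠ 0) (hy : ‖Pr Sᶜ y‖ ≠ 0) :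
    HasFDerivAt (uu S a M g) (innerSL ℝ (GG S a L P R y)) y := by
  have cZ : Continuous fun y : Sp n => ‖Pr Sᶜ y‖ := by fun_prop
  have cX : Continuous fun y : Sp n => ‖Pr S y‖ := by fun_prop
  have := hom S hx hy (a + 1) (h.hg _ (pos_of S hx hy))
  rw [add_sub_cancel_right, ← h.hR, ← G_off S hx hy] at this
  refine this.congr_of_eventuallyEq ?_
  filter_upwards [cX.continuousAt.eventually_ne hx, cZ.continuousAt.eventually_ne hy] with w hw hw'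
  exact T_off S hw hw' g M (-M) (a + 1)

lemma du {i j : Fin n} (hi : i ∈ S) (hj : j ∉ S) (y : Sp n) :
    HasFDerivAt (uu S a M g) (innerSL ℝ (GG S a L P R y)) y := by
  refine glue (i := i) (j := j) (fun e => hj (e ▸ hi)) (h.cu S) (h.cG S)
    (fun y h1 h2 => h.du_off S ?_ ?_) y
  · have := abs_le_Pr S hi y
    have := abs_pos.2 h1
    linarith
  · have := abs_le_Pr Sᶜ (Finset.mem_compl.2 hj) y
    have := abs_pos.2 h2
    linarith

lemma cd_u {i j : Fin n} (hi : i ∈ S) (hj : j ∉ S) : ContDiff ℝ 1 (uu S a M g) := by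
  rw [contDiff_one_iff_fderiv]
  refine ⟨fun y => (h.du S hi hj y).differentiableAt, ?_⟩
  rw [show fderiv ℝ (uu S a M g) = _ from funext fun y => (h.du S hi hj y).fderiv]
  exact (innerSL ℝ).continuous.comp (h.cG S)

lemma grad_u {i j : Fin n} (hi : i ∈ S) (hj : j ∉ S) (y : Sp n) :
    gradient (uu S a M g) y = GG S a L P R y := by
  refine HasGradientAt.gradient (hasGradientAt_iff_hasFDerivAt.2 ?_)
  refine (h.du S hi hj y).congr_fderiv ?_
  ext w; simp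

lemma cW : Continuous (WW S q a L P R) := (cont_flux h.hq).comp (h.cG S)

lemma W_bd {y : Sp n} (hx : ‖Pr S y‖ ≠ 0) (hy : ‖Pr Sᶜ y‖ ≠ 0) :
    |⟪WW S q a L P R y, Pr S y⟫| ≤ 2 * ‖WW S q a L P R y‖ * ‖y‖⁻¹ * ‖Pr S y‖ ^ 2 ∧
    |⟪WW S q a L P R y, Pr Sᶜ y⟫| ≤ 2 * ‖WW S q a L P R y‖ * ‖y‖⁻¹ * ‖Pr Sᶜ y‖ ^ 2 := by
  have z0 : 0 < ‖Pr Sᶜ y‖ := lt_of_le_of_ne (norm_nonneg _) (Ne.symm hy)
  have x0 : 0 < ‖Pr S y‖ := lt_of_le_of_ne (norm_nonneg _) (Ne.symm hx)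
  have ny := norm_sq_eq S y
  have y0 : 0 < ‖y‖ := by
    have e : 0 < ‖y‖ ^ 2 := by rw [ny]; positivity
    exact lt_of_le_of_ne (norm_nonneg _) fun e' => by rw [← e'] at e; simp at e
  obtain ⟨α, hα⟩ : ∃ α, α = ‖Pr Sᶜ y‖ ^ a * P (‖Pr S y‖ / ‖Pr Sᶜ y‖) / ‖Pr S y‖ := ⟨_, rfl⟩
  obtain ⟨β, hβ⟩ : ∃ β, β = ‖Pr Sᶜ y‖ ^ a * R (‖Pr S y‖ / ‖Pr Sᶜ y‖) / ‖Pr Sᶜ y‖ := ⟨_, rfl⟩
  have eG : GG S a L P R y = α • Pr S y + β • Pr Sᶜ y := by rw [G_off S hx hy, hα, hβ]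
  have nG := norm_comb S α β y
  rw [← eG] at nG
  have p : 0 < ‖Pr Sᶜ y‖ ^ a := by positivity
  have g1 : |α| * ‖Pr S y‖ ≤ ‖GG S a L P R y‖ := by
    refine (pow_le_pow_iff_left₀ (by positivity) (norm_nonneg _) two_ne_zero).1 ?_
    rw [nG, mul_pow, sq_abs]
    linarith [mul_nonneg (sq_nonneg β) (sq_nonneg ‖Pr Sᶜ y‖)]
  have g2 : |β| * ‖Pr Sᶜ y‖ ≤ ‖GG S a L P R y‖ := by
    refine (pow_le_pow_iff_left₀ (by positivity) (norm_nonneg _) two_ne_zero).1 ?_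
    rw [nG, mul_pow, sq_abs]
    linarith [mul_nonneg (sq_nonneg α) (sq_nonneg ‖Pr S y‖)]
  have key : |α| * ‖y‖ ≤ 2 * ‖GG S a L P R y‖ ∧ |β| * ‖y‖ ≤ 2 * ‖GG S a L P R y‖ := by
    have aa := abs_nonneg α
    have bb := abs_nonneg β
    rcases le_total 1 (‖Pr S y‖ / ‖Pr Sᶜ y‖) with h1 | h1
    · have e1 : |β| ≤ |α| := by
        have := h.s1 _ h1
        rw [hα, hβ, abs_div, abs_div, abs_mul, abs_mul, abs_of_pos p, abs_of_pos x0, abs_of_pos z0,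
          div_le_div_iff₀ z0 x0, mul_assoc, mul_assoc]
        refine mul_le_mul_of_nonneg_left ?_ p.le
        rwa [← mul_div_assoc, div_le_iff₀ z0] at this
      rw [one_le_div z0] at h1
      have e2 : ‖y‖ ≤ 2 * ‖Pr S y‖ := by nlinarith
      have e3 := mul_le_mul_of_nonneg_left e2 aa
      have e4 := mul_le_mul_of_nonneg_right e1 y0.le
      constructor <;> linarith
    · have e1 : |α| ≤ |β| := by
        have := h.s2 _ (pos_of S hx hy) h1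
        rw [hα, hβ, abs_div, abs_div, abs_mul, abs_mul, abs_of_pos p, abs_of_pos x0, abs_of_pos z0,
          div_le_div_iff₀ x0 z0, mul_assoc, mul_assoc]
        refine mul_le_mul_of_nonneg_left ?_ p.le
        rwa [div_mul_eq_mul_div, le_div_iff₀ z0, mul_comm ‖Pr S y‖] at this
      rw [div_le_one z0] at h1
      have e2 : ‖y‖ ≤ 2 * ‖Pr Sᶜ y‖ := by nlinarith
      have e3 := mul_le_mul_of_nonneg_left e2 bb
      have e4 := mul_le_mul_of_nonneg_right e1 y0.le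
      constructor <;> linarith
  have pw : 0 ≤ ‖GG S a L P R y‖ ^ (q - 1) := by positivity
  have nW : ‖WW S q a L P R y‖ = ‖GG S a L P R y‖ ^ (q - 1) * ‖GG S a L P R y‖ := by
    rw [WW, norm_smul, Real.norm_of_nonneg pw]
  have fin : ∀ c r : ℝ, |c| * ‖y‖ ≤ 2 * ‖GG S a L P R y‖ →
      |‖GG S a L P R y‖ ^ (q - 1) * (c * r ^ 2)| ≤ 2 * ‖WW S q a L P R y‖ * ‖y‖⁻¹ * r ^ 2 := by
    intro c r hc
    rw [nW, abs_mul, abs_mul, abs_of_nonneg pw, abs_of_nonneg (sq_nonneg r), ← mul_assoc]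
    refine mul_le_mul_of_nonneg_right ?_ (sq_nonneg r)
    rw [← div_eq_mul_inv, le_div_iff₀ y0]
    have := mul_le_mul_of_nonneg_left hc pw
    linarith
  have i1 : ⟪GG S a L P R y, Pr S y⟫ = α * ‖Pr S y‖ ^ 2 := by
    rw [eG, inner_add_left, inner_smul_left, inner_smul_left, real_inner_comm (Pr S y) (Pr Sᶜ y),
      inner_Pr', real_inner_self_eq_norm_sq]
    simp
  have i2 : ⟪GG S a L P R y, Pr Sᶜ y⟫ = β * ‖Pr Sᶜ y‖ ^ 2 := by
    rw [eG, inner_add_left, inner_smul_left, inner_smul_left, inner_Pr',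
      real_inner_self_eq_norm_sq]
    simp
  constructor
  · conv_lhs => rw [WW, inner_smul_left, i1]
    exact fin _ _ key.1
  · conv_lhs => rw [WW, inner_smul_left, i2]
    exact fin _ _ key.2

end Prof

lemma deriv_pow {f : ℝ → ℝ} {c b : ℝ} (h : ∀ t, 0 < t → f t = c * t ^ b) (t : ℝ) (ht : 0 < t) :
    deriv f t = c * b * t ^ (b - 1) := by
  have e : f =ᶠ[𝓝 t] fun t => c * t ^ b := by
    filter_upwards [lt_mem_nhds ht] with s hs using h s hs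
  rw [e.deriv_eq, ((Real.hasDerivAt_rpow_const (Or.inl ht.ne')).const_mul c).deriv, mul_assoc]

lemma cd_deriv {f : ℝ → ℝ} {m : ℕ} (h : ContDiffAt ℝ (m + 1) f 0) : ContDiffAt ℝ m (deriv f) 0 :=
  (h.fderiv_right le_rfl).clm_apply contDiffAt_const

lemma not_three {f : ℝ → ℝ} {c a : ℝ} (hc : 0 < c) (a1 : 1 < a) (a2 : a < 2)
    (h : ∀ t, 0 < t → f t = c * t ^ (a + 1)) : ¬ ContDiffAt ℝ 3 f 0 := by
  intro H
  have h3 := deriv_pow (deriv_pow (deriv_pow h))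
  have c3 := (cd_deriv (m := 0) (cd_deriv (m := 1) (cd_deriv (m := 2) H))).continuousAt
  have t : Tendsto (deriv (deriv (deriv f))) (𝓝[>] 0) atTop := by
    have := (tendsto_rpow_neg_nhdsGT_zero (y := a + 1 - 1 - 1 - 1) (by linarith)).const_mul_atTop
      (r := c * (a + 1) * (a + 1 - 1) * (a + 1 - 1 - 1)) (by
        have : 0 < a + 1 - 1 - 1 := by linarith
        have : 0 < a + 1 - 1 := by linarith
        positivity)
    refine this.congr' ?_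
    filter_upwards [self_mem_nhdsWithin] with s hs using (h3 s hs).symm
  exact not_tendsto_atTop_of_tendsto_nhds (c3.tendsto.mono_left nhdsWithin_le_nhds) t

lemma Prof.not_cd {q a M L C : ℝ} {g P R : ℝ → ℝ} (h : Prof q a M L C g P R)
    {i j : Fin n} (hi : i ∈ S) (hj : j ∉ S) : ¬ ContDiffAt ℝ 3 (uu S a M g) 0 := by
  intro H
  have hij : i ≠ j := fun e => hj (e ▸ hi)
  have H2 : ContDiffAt ℝ 3 (fun t : ℝ => uu S a M g (t • ((2 : ℝ) • ee i + ee j))) 0 :=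
    ContDiffAt.comp (g := uu S a M g) 0 (by simpa using H) (by fun_prop)
  refine not_three h.g2 h.a1 (by linarith [h.a2]) (fun t ht => ?_) H2
  have e1 : Pr S (t • ((2 : ℝ) • ee i + ee j)) = (2 * t) • ee i := by
    ext k
    by_cases hk : k ∈ S
    · have : k ≠ j := fun e => hj (e ▸ hk)
      simp [Pr_apply, hk, ee, this, mul_comm]
    · have : k ≠ i := fun e => hk (e ▸ hi)
      simp [Pr_apply, hk, ee, this]
  have e2 : Pr Sᶜ (t • ((2 : ℝ) • ee i + ee j)) = t • ee j := by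
    ext k
    by_cases hk : k ∈ S
    · have : k ≠ j := fun e => hj (e ▸ hk)
      simp [Pr_apply, hk, ee, this]
    · have : k ≠ i := fun e => hk (e ▸ hi)
      simp [Pr_apply, hk, ee, this]
  have n1 : ‖Pr S (t • ((2 : ℝ) • ee i + ee j))‖ = 2 * t := by
    rw [e1, norm_smul, norm_ee, mul_one, Real.norm_of_nonneg (by positivity)]
  have n2 : ‖Pr Sᶜ (t • ((2 : ℝ) • ee i + ee j))‖ = t := by
    rw [e2, norm_smul, norm_ee, mul_one, Real.norm_of_nonneg ht.le]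
  rw [uu, T_off S (by rw [n1]; positivity) (by rw [n2]; positivity), n1, n2,
    mul_div_cancel_right₀ _ ht.ne', mul_comm]

end Pool.Agent.H.MP_c081e6_an
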