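import Pool.Agent.H.MP_c081e6_an.D

open Set Filter Topology Metric MeasureTheory
open scoped RealInnerProductSpace
open Pool.Agent.H.MP_f4f698_an (Sp ee inner_ee inner_ee' norm_ee hX sum_inner th_cd th_zero th_bd)

namespace Pool.Agent.H.MP_c081e6_an

variable {n : ℕ} (S : Finset (Fin n))

noncomputable def chi (d : ℝ) (y : Sp n) : ℝ := Real.smoothTransition (‖Pr S y‖ ^ 2 / d - 1)

noncomputable def chi' (d : ℝ) (y : Sp n) : ℝ :=
  deriv Real.smoothTransition (‖Pr S y‖ ^ 2 / d - 1) * (2 / d)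

lemma chi_cd (d : ℝ) : ContDiff ℝ 1 (chi S d) :=
  th_cd.comp ((((Pr S).contDiff.norm_sq ℝ).div_const d).sub contDiff_const)

lemma chi_d (d : ℝ) (y : Sp n) : HasFDerivAt (chi S d) (innerSL ℝ (chi' S d y • Pr S y)) y := by
  have h1 : HasFDerivAt (fun y => ‖Pr S y‖ ^ 2 / d - 1) _ y :=
    ((hZ2 S y).mul_const d⁻¹).sub_const 1
  refine ((th_cd.differentiable one_ne_zero _).hasDerivAt.comp_hasFDerivAt y h1).congr_fderiv ?_
  ext w
  simp [chi']
  ring

lemma chi_zero (d : ℝ) {y : Sp n} (hy : ‖Pr S y‖ = 0) : chi S d =ᶠ[𝓝 y] fun _ => 0 := by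
  have c : Continuous fun w : Sp n => ‖Pr S w‖ ^ 2 / d - 1 := by fun_prop
  have : ‖Pr S y‖ ^ 2 / d - 1 < 0 := by rw [hy]; simp
  filter_upwards [(c.tendsto y).eventually (gt_mem_nhds this)] with w hw
  exact Real.smoothTransition.zero_of_nonpos hw.le

lemma chi_abs (d : ℝ) (y : Sp n) : |chi S d y| ≤ 1 := by
  rw [chi, abs_of_nonneg (Real.smoothTransition.nonneg _)]
  exact Real.smoothTransition.le_one _

lemma chi_ev {y : Sp n} (hy : ‖Pr S y‖ ≠ 0) :
    ∀ᶠ d in 𝓝[>] (0 : ℝ), chi S d y = 1 ∧ chi' S d y = 0 := by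
  have p : 0 < ‖Pr S y‖ ^ 2 / 2 := by positivity
  filter_upwards [Ioo_mem_nhdsGT p] with d hd
  have : 1 < ‖Pr S y‖ ^ 2 / d - 1 := by
    rw [lt_sub_iff_add_lt, lt_div_iff₀ hd.1]
    linarith [hd.2]
  exact ⟨Real.smoothTransition.one_of_one_le this.le, by rw [chi', th_zero this, zero_mul]⟩

lemma chi_bd {K d x c : ℝ} (K0 : 0 ≤ K) (hK : ∀ t, |deriv Real.smoothTransition t| ≤ K) (hd : 0 < d)
    (hc : 0 ≤ c) {y : Sp n} (hx : |x| ≤ c * ‖Pr S y‖ ^ 2) : |chi' S d y * x| ≤ 4 * K * c := by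
  rw [chi']
  rcases lt_or_ge 1 (‖Pr S y‖ ^ 2 / d - 1) with h1 | h1
  · rw [th_zero h1]; simp; positivity
  · rw [mul_assoc, abs_mul, show 4 * K * c = K * (4 * c) by ring]
    refine mul_le_mul (hK _) ?_ (by positivity) K0
    rw [sub_le_iff_le_add, div_le_iff₀ hd] at h1
    rw [abs_mul, abs_of_pos (by positivity : 0 < 2 / d), div_mul_eq_mul_div, div_le_iff₀ hd]
    have e3 := mul_le_mul_of_nonneg_left h1 hc
    linarith

namespace Prof
variable {q a M L C : ℝ} {g P R : ℝ → ℝ} (h : Prof q a M L C g P R)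
include h

lemma cH {s : ℝ} (hs : 0 < s) : ContDiffAt ℝ 1 (fun s => (P s ^ 2 + R s ^ 2) ^ ((q - 1) / 2)) s :=
  (((h.cP s hs).pow 2).add ((h.cR s hs).pow 2)).rpow_const_of_ne (h.Hpos s).ne'

lemma cA (s : ℝ) (hs : 0 < s) :
    ContDiffAt ℝ 1 (fun s => (P s ^ 2 + R s ^ 2) ^ ((q - 1) / 2) * P s / s) s :=
  ((h.cH hs).mul (h.cP s hs)).div contDiffAt_id hs.ne'

lemma cB (s : ℝ) (hs : 0 < s) :
    ContDiffAt ℝ 1 (fun s => (P s ^ 2 + R s ^ 2) ^ ((q - 1) / 2) * R s) s :=
  (h.cH hs).mul (h.cR s hs)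

omit h in
lemma W_ev {y : Sp n} (hx : ‖Pr S y‖ ≠ 0) (hy : ‖Pr Sᶜ y‖ ≠ 0) (i : Fin n) :
    (fun y => WW S q a L P R y i) =ᶠ[𝓝 y] fun y => ‖Pr Sᶜ y‖ ^ (a * q - 1) *
      (if i ∈ S then (fun s => (P s ^ 2 + R s ^ 2) ^ ((q - 1) / 2) * P s / s)
        else (fun s => (P s ^ 2 + R s ^ 2) ^ ((q - 1) / 2) * R s)) (‖Pr S y‖ / ‖Pr Sᶜ y‖) * y i := by
  have cZ : Continuous fun y : Sp n => ‖Pr Sᶜ y‖ := by fun_prop
  have cX : Continuous fun y : Sp n => ‖Pr S y‖ := by fun_prop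
  filter_upwards [cX.continuousAt.eventually_ne hx, cZ.continuousAt.eventually_ne hy] with w hw hw'
  exact W_off S hw hw' i

lemma W_cd {y : Sp n} (hx : ‖Pr S y‖ ≠ 0) (hy : ‖Pr Sᶜ y‖ ≠ 0) (i : Fin n) :
    ContDiffAt ℝ 1 (fun y => WW S q a L P R y i) y := by
  have h2 : ContDiffAt ℝ 1 (fun y : Sp n => y i) y :=
    (EuclideanSpace.proj i : Sp n →L[ℝ] ℝ).contDiff.contDiffAt
  refine ((cd_hom S hx hy ?_ (a * q - 1)).mul h2).congr_of_eventuallyEq (W_ev S hx hy i)
  split_ifs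
  exacts [h.cA, h.cB]

lemma f_cd (d : ℝ) (i : Fin n) :
    ContDiff ℝ 1 fun y => WW S q a L P R y i * (chi S d y * chi Sᶜ d y) := by
  rw [contDiff_iff_contDiffAt]
  intro y
  by_cases hx : ‖Pr S y‖ = 0
  · refine (contDiffAt_const (c := (0 : ℝ))).congr_of_eventuallyEq ?_
    filter_upwards [chi_zero S d hx] with w hw
    simp [hw]
  by_cases hy : ‖Pr Sᶜ y‖ = 0
  · refine (contDiffAt_const (c := (0 : ℝ))).congr_of_eventuallyEq ?_
    filter_upwards [chi_zero Sᶜ d hy] with w hw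
    simp [hw]
  · exact (h.W_cd S hx hy i).mul ((chi_cd S d).mul (chi_cd Sᶜ d)).contDiffAt

lemma div_W (h1 : S.card = 10) (h2 : Sᶜ.card = 10) {y : Sp n} (hx : ‖Pr S y‖ ≠ 0)
    (hy : ‖Pr Sᶜ y‖ ≠ 0) : ∑ i, fderiv ℝ (fun y => WW S q a L P R y i) y (ee i) = 0 := by
  have s0 := pos_of S hx hy
  have dA := ((h.cA _ s0).differentiableAt one_ne_zero).hasDerivAt
  have dB := ((h.cB _ s0).differentiableAt one_ne_zero).hasDerivAt
  have hd := h.hdiv _ s0
  have ev := W_ev (q := q) (a := a) (L := L) (P := P) (R := R) S hx hy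
  obtain ⟨A, hA⟩ : ∃ A : ℝ → ℝ, A = fun s => (P s ^ 2 + R s ^ 2) ^ ((q - 1) / 2) * P s / s :=
    ⟨_, rfl⟩
  obtain ⟨B, hB⟩ : ∃ B : ℝ → ℝ, B = fun s => (P s ^ 2 + R s ^ 2) ^ ((q - 1) / 2) * R s := ⟨_, rfl⟩
  rw [← congrFun hA, ← congrFun hB, ← hA, ← hB] at hd
  rw [← hA] at dA
  rw [← hB] at dB
  rw [← hA, ← hB] at ev
  obtain ⟨s, hs⟩ : ∃ s, s = ‖Pr S y‖ / ‖Pr Sᶜ y‖ := ⟨_, rfl⟩
  have key : ∀ i, fderiv ℝ (fun y => WW S q a L P R y i) y (ee i) =
      (if i ∈ S then ‖Pr Sᶜ y‖ ^ (a * q - 1) * A s else ‖Pr Sᶜ y‖ ^ (a * q - 1) * B s) +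
        ‖Pr Sᶜ y‖ ^ (a * q - 1 - 1) * deriv A s / ‖Pr S y‖ * (Pr S y i * Pr S y i) +
        ‖Pr Sᶜ y‖ ^ (a * q - 1 - 1) * ((a * q - 1) * B s - s * deriv B s) / ‖Pr Sᶜ y‖ *
          (Pr Sᶜ y i * Pr Sᶜ y i) := by
    intro i
    rw [(ev i).fderiv_eq]
    by_cases hi : i ∈ S
    · have := ((hom S hx hy (a * q - 1) dA).mul (hX y i)).fderiv
      simp only [if_pos hi]
      erw [this]
      rw [← hs]
      simp only [add_apply, smul_apply, innerSL_apply_apply, inner_ee', smul_eq_mul,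
        PiLp.add_apply, PiLp.smul_apply, Pr_apply, Finset.mem_compl]
      simp [ee, hi]
      ring
    · have := ((hom S hx hy (a * q - 1) dB).mul (hX y i)).fderiv
      simp only [if_neg hi]
      erw [this]
      rw [← hs]
      simp only [add_apply, smul_apply, innerSL_apply_apply, inner_ee', smul_eq_mul,
        PiLp.add_apply, PiLp.smul_apply, Pr_apply, Finset.mem_compl]
      simp [ee, hi]
      ring
  have e : ∀ x z : ℝ, ∑ i, (if i ∈ S then x else z) = 10 * x + 10 * z := fun x z => by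
    rw [← Finset.sum_add_sum_compl S, Finset.sum_congr rfl fun i hi => if_pos hi,
      Finset.sum_congr rfl fun i hi => if_neg (Finset.mem_compl.1 hi)]
    simp [h1, h2]
  simp only [key, Finset.sum_add_distrib, e, ← Finset.mul_sum, sum_inner,
    real_inner_self_eq_norm_sq]
  rw [← hs] at hd
  have e2 : ‖Pr S y‖ = s * ‖Pr Sᶜ y‖ := by rw [hs, div_mul_cancel₀ _ hy]
  rw [← hs] at s0
  rw [Real.rpow_sub_one hy (a * q - 1), e2]
  field_simp
  linear_combination (‖Pr Sᶜ y‖ ^ (a * q - 1)) * hd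

lemma div_f (h1 : S.card = 10) (h2 : Sᶜ.card = 10) (d : ℝ) (y : Sp n) :
    ∑ i, fderiv ℝ (fun y => WW S q a L P R y i * (chi S d y * chi Sᶜ d y)) y (ee i) =
      chi Sᶜ d y * (chi' S d y * ⟪WW S q a L P R y, Pr S y⟫) +
        chi S d y * (chi' Sᶜ d y * ⟪WW S q a L P R y, Pr Sᶜ y⟫) := by
  by_cases hx : ‖Pr S y‖ = 0
  · rw [norm_eq_zero.1 hx, inner_zero_right, (chi_zero S d hx).eq_of_nhds]
    simp only [mul_zero, zero_mul, add_zero]
    refine Finset.sum_eq_zero fun i _ => ?_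
    have e : (fun y => WW S q a L P R y i * (chi S d y * chi Sᶜ d y)) =ᶠ[𝓝 y] fun _ => 0 := by
      filter_upwards [chi_zero S d hx] with w hw
      simp [hw]
    rw [e.fderiv_eq]; simp
  by_cases hy : ‖Pr Sᶜ y‖ = 0
  · rw [norm_eq_zero.1 hy, inner_zero_right, (chi_zero Sᶜ d hy).eq_of_nhds]
    simp only [mul_zero, zero_mul, add_zero]
    refine Finset.sum_eq_zero fun i _ => ?_
    have e : (fun y => WW S q a L P R y i * (chi S d y * chi Sᶜ d y)) =ᶠ[𝓝 y] fun _ => 0 := by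
      filter_upwards [chi_zero Sᶜ d hy] with w hw
      simp [hw]
    rw [e.fderiv_eq]; simp
  · have key : ∀ i, fderiv ℝ (fun y => WW S q a L P R y i * (chi S d y * chi Sᶜ d y)) y (ee i) =
        chi Sᶜ d y * chi' S d y * (WW S q a L P R y i * Pr S y i) +
        chi S d y * chi' Sᶜ d y * (WW S q a L P R y i * Pr Sᶜ y i) +
        chi S d y * chi Sᶜ d y * fderiv ℝ (fun y => WW S q a L P R y i) y (ee i) := by
      intro i
      have := (((h.W_cd S hx hy i).differentiableAt one_ne_zero).hasFDerivAt.mul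
        ((chi_d S d y).mul (chi_d Sᶜ d y))).fderiv
      erw [this]
      simp only [add_apply, smul_apply, innerSL_apply_apply, inner_ee', smul_eq_mul,
        PiLp.smul_apply, Pi.mul_apply]
      ring
    simp only [key, Finset.sum_add_distrib, ← Finset.mul_sum, h.div_W S h1 h2 hx hy, sum_inner]
    ring

theorem weak (h1 : S.card = 10) (h2 : Sᶜ.card = 10) {φ : Sp n → ℝ}
    (hφ : ContDiff ℝ 1 φ) (hc : HasCompactSupport φ) :
    Integrable (fun y => ∑ i, WW S q a L P R y i * fderiv ℝ φ y (ee i)) ∧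
      ∫ y, ∑ i, WW S q a L P R y i * fderiv ℝ φ y (ee i) = 0 := by
  have cW : ∀ i, Continuous fun y => WW S q a L P R y i := fun i =>
    (EuclideanSpace.proj i : Sp n →L[ℝ] ℝ).continuous.comp (h.cW S)
  have cφ := hφ.continuous
  have cD : ∀ i, Continuous fun y => fderiv ℝ φ y (ee i) := fun i =>
    (hφ.continuous_fderiv one_ne_zero).clm_apply continuous_const
  have sD : ∀ i, HasCompactSupport fun y => fderiv ℝ φ y (ee i) := fun i =>
    hc.fderiv_apply ℝ (ee i)
  obtain ⟨Φ, hΦ⟩ : ∃ Φ : Sp n → ℝ, Φ = fun y => ∑ i, WW S q a L P R y i * fderiv ℝ φ y (ee i) :=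
    ⟨_, rfl⟩
  have iΦ : Integrable Φ := by
    rw [hΦ]
    exact integrable_finsetSum _ fun i _ =>
      ((cW i).mul (cD i)).integrable_of_hasCompactSupport (sD i).mul_left
  obtain ⟨H, hH⟩ : ∃ H : ℝ → Sp n → ℝ, H = fun d y =>
      (chi Sᶜ d y * (chi' S d y * ⟪WW S q a L P R y, Pr S y⟫) +
        chi S d y * (chi' Sᶜ d y * ⟪WW S q a L P R y, Pr Sᶜ y⟫)) * φ y := ⟨_, rfl⟩
  have main : ∀ d : ℝ, ∫ y, (chi S d y * chi Sᶜ d y) * Φ y = -∫ y, H d y := by
    intro d
    have i1 : ∀ i, Integrable fun y =>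
        fderiv ℝ (fun y => WW S q a L P R y i * (chi S d y * chi Sᶜ d y)) y (ee i) * φ y := fun i =>
      ((((h.f_cd S d i).continuous_fderiv one_ne_zero).clm_apply continuous_const).mul
        cφ).integrable_of_hasCompactSupport hc.mul_left
    have i2 : ∀ i, Integrable fun y =>
        (WW S q a L P R y i * (chi S d y * chi Sᶜ d y)) * fderiv ℝ φ y (ee i) := fun i =>
      ((h.f_cd S d i).continuous.mul (cD i)).integrable_of_hasCompactSupport (sD i).mul_left
    have e : ∀ i, ∫ y, (WW S q a L P R y i * (chi S d y * chi Sᶜ d y)) * fderiv ℝ φ y (ee i) =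
        -∫ y, fderiv ℝ (fun y => WW S q a L P R y i * (chi S d y * chi Sᶜ d y)) y (ee i) * φ y :=
      fun i => integral_mul_fderiv_eq_neg_fderiv_mul_of_integrable (i1 i) (i2 i)
        (((h.f_cd S d i).continuous.mul cφ).integrable_of_hasCompactSupport hc.mul_left)
        (fun x _ => (h.f_cd S d i).differentiable one_ne_zero x)
        (fun x _ => hφ.differentiable one_ne_zero x)
    have e2 := Finset.sum_congr (rfl : Finset.univ = Finset.univ) fun i _ => e i
    rw [Finset.sum_neg_distrib, ← integral_finsetSum _ fun i _ => i1 i,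
      ← integral_finsetSum _ fun i _ => i2 i] at e2
    simp only [← Finset.sum_mul, h.div_f S h1 h2] at e2
    rw [hH, ← e2, hΦ]
    congr 1
    ext y
    rw [Finset.mul_sum]
    exact Finset.sum_congr rfl fun i _ => by ring
  have null : ∀ U : Finset (Fin n), U.card = 10 → ∀ᵐ y : Sp n, ‖Pr U y‖ ≠ 0 := by
    intro U hU
    obtain ⟨j, hj⟩ := Finset.card_pos.1 (show 0 < U.card by omega)
    have null : volume ((EuclideanSpace.proj j : Sp n →L[ℝ] ℝ).ker : Set (Sp n)) = 0 := by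
      refine Measure.addHaar_submodule _ _ fun e => ?_
      have : ee j ∈ (EuclideanSpace.proj j : Sp n →L[ℝ] ℝ).ker := by rw [e]; trivial
      simp [ee] at this
    filter_upwards [measure_eq_zero_iff_ae_notMem.1 null] with y hy
    have := abs_le_Pr U hj y
    have : 0 < |y j| := abs_pos.2 (by simpa using hy)
    linarith
  have t1 : Tendsto (fun d => ∫ y, (chi S d y * chi Sᶜ d y) * Φ y) (𝓝[>] 0) (𝓝 (∫ y, Φ y)) := by
    refine tendsto_integral_filter_of_dominated_convergence (fun y => ‖Φ y‖)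
      (Eventually.of_forall fun d => ((chi_cd S d).continuous.mul
        (chi_cd Sᶜ d).continuous).aestronglyMeasurable.mul iΦ.aestronglyMeasurable)
      (Eventually.of_forall fun d => Eventually.of_forall fun y => ?_) iΦ.norm ?_
    · rw [norm_mul]
      refine mul_le_of_le_one_left (norm_nonneg _) ?_
      rw [Real.norm_eq_abs, abs_mul]
      exact mul_le_one₀ (chi_abs S d y) (abs_nonneg _) (chi_abs Sᶜ d y)
    · filter_upwards [null S h1, null Sᶜ h2] with y hx hy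
      refine tendsto_const_nhds.congr' ?_
      filter_upwards [chi_ev S hx, chi_ev Sᶜ hy] with d k1 k2
      rw [k1.1, k2.1, one_mul, one_mul]
  obtain ⟨K, K0, hK⟩ := th_bd
  have t2 : Tendsto (fun d => ∫ y, H d y) (𝓝[>] 0) (𝓝 (∫ _ : Sp n, (0 : ℝ))) := by
    have cw := h.cW S
    refine tendsto_integral_filter_of_dominated_convergence
      (fun y => (16 * K * ‖WW S q a L P R y‖ * |φ y|) • ‖y‖⁻¹)
      (Eventually.of_forall fun d => Continuous.aestronglyMeasurable ?_) ?_ ?_ ?_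
    · have := th_cd.continuous_deriv le_rfl
      have := (chi_cd S d).continuous
      have := (chi_cd Sᶜ d).continuous
      rw [hH]
      unfold chi'
      fun_prop
    · filter_upwards [self_mem_nhdsWithin] with d hd
      have hd : 0 < d := hd
      filter_upwards [null S h1, null Sᶜ h2] with y hx hy
      obtain ⟨b1, b2⟩ := h.W_bd S hx hy
      have k1 := chi_bd S K0 hK hd (by positivity) b1
      have k2 := chi_bd Sᶜ K0 hK hd (by positivity) b2
      have k3 := mul_le_mul (chi_abs Sᶜ d y) k1 (abs_nonneg _) zero_le_one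
      have k4 := mul_le_mul (chi_abs S d y) k2 (abs_nonneg _) zero_le_one
      rw [← abs_mul] at k3 k4
      have k5 := (abs_add_le _ _).trans (add_le_add k3 k4)
      rw [hH, Real.norm_eq_abs, abs_mul]
      refine (mul_le_mul_of_nonneg_right k5 (abs_nonneg _)).trans_eq ?_
      rw [smul_eq_mul]; ring
    · have hn : 10 ≤ n := by simpa [h1] using Finset.card_le_univ S
      have li : LocallyIntegrable (fun y : Sp n => ‖y‖⁻¹) :=
        locallyIntegrable_of_norm_le_rpow (C := 1) (α := 1) (by simp; omega)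
          (by simp; omega) (Eventually.of_forall fun y => by simp [Real.rpow_neg_one])
          (measurable_norm.inv.aestronglyMeasurable)
      exact li.integrable_smul_left_of_hasCompactSupport (by fun_prop) hc.abs.mul_left
    · filter_upwards [null S h1, null Sᶜ h2] with y hx hy
      refine tendsto_const_nhds.congr' ?_
      filter_upwards [chi_ev S hx, chi_ev Sᶜ hy] with d k1 k2
      rw [hH]; simp [k1.2, k2.2]
  have t3 := t2.neg
  rw [integral_zero, neg_zero] at t3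
  simp only [← main] at t3
  rw [← hΦ]
  exact ⟨iΦ, tendsto_nhds_unique t1 t3⟩

end Prof

end Pool.Agent.H.MP_c081e6_an
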